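import Pool.Agent.Thin.Cfg

/-!
# A unit vector with given inner products with two unit vectors
-/

set_option autoImplicit false

namespace Pool.Agent.HCH

open Real Pool.Agent.Lib_helper54.Flat

/-- The vector product. -/
noncomputable def cr (v w : E3) : E3 :=
  !₂[v 1 * w 2 - v 2 * w 1, v 2 * w 0 - v 0 * w 2, v 0 * w 1 - v 1 * w 0]

theorem inner_eq (v w : E3) : inner ℝ v w = v 0 * w 0 + v 1 * w 1 + v 2 * w 2 := by
  rw [PiLp.inner_apply, Fin.sum_univ_three]
  simp only [RCLike.inner_apply, conj_trivial]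
  ring

theorem cr_left (v w : E3) : inner ℝ (cr v w) v = (0 : ℝ) := by
  rw [inner_eq]
  simp only [cr, PiLp.toLp_apply, Matrix.cons_val_zero, Matrix.cons_val_one, Matrix.cons_val]
  ring

theorem cr_right (v w : E3) : inner ℝ (cr v w) w = (0 : ℝ) := by
  rw [inner_eq]
  simp only [cr, PiLp.toLp_apply, Matrix.cons_val_zero, Matrix.cons_val_one, Matrix.cons_val]
  ring

theorem cr_self (v w : E3) : (inner ℝ (cr v w) (cr v w) : ℝ) =
    inner ℝ v v * inner ℝ w w - inner ℝ v w * inner ℝ v w := by
  rw [inner_eq, inner_eq, inner_eq, inner_eq]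
  simp only [cr, PiLp.toLp_apply, Matrix.cons_val_zero, Matrix.cons_val_one, Matrix.cons_val]
  ring

theorem continuous_cr {X : Type} [TopologicalSpace X] {v w : X → E3} (hv : Continuous v)
    (hw : Continuous w) : Continuous fun x => cr (v x) (w x) := by
  have h : ∀ (u : X → E3) (_ : Continuous u) (i : Fin 3), Continuous fun x => u x i :=
    fun u hu i => by fun_prop
  unfold cr
  refine (PiLp.continuous_toLp 2 _).comp (continuous_pi fun i => ?_)
  fin_cases i
  · exact ((h v hv 1).mul (h w hw 2)).sub ((h v hv 2).mul (h w hw 1))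
  · exact ((h v hv 2).mul (h w hw 0)).sub ((h v hv 0).mul (h w hw 2))
  · exact ((h v hv 0).mul (h w hw 1)).sub ((h v hv 1).mul (h w hw 0))

/-- The unit vector with the inner products `p`, `q` with `a`, `b`, where `g` is the inner product
of `a` and `b`. -/
noncomputable def att (g p q : ℝ) (a b : E3) : E3 :=
  ((p - g * q) / (1 - g * g)) • a + ((q - g * p) / (1 - g * g)) • b +
    (√(1 - g * g - p * p - q * q + 2 * g * p * q) / (1 - g * g)) • cr a b

theorem att_spec {g p q : ℝ} {a b : E3} (ha : inner ℝ a a = (1 : ℝ)) (hb : inner ℝ b b = (1 : ℝ))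
    (hab : inner ℝ a b = g) (hg : 0 < 1 - g * g)
    (hD : 0 ≤ 1 - g * g - p * p - q * q + 2 * g * p * q) :
    inner ℝ a (att g p q a b) = p ∧ inner ℝ (att g p q a b) b = q ∧
      inner ℝ (att g p q a b) (att g p q a b) = (1 : ℝ) := by
  have h1 := cr_left a b
  have h2 := cr_right a b
  have h3 := cr_self a b
  have h1' : inner ℝ a (cr a b) = (0 : ℝ) := by rw [real_inner_comm]; exact h1
  have h2' : inner ℝ b (cr a b) = (0 : ℝ) := by rw [real_inner_comm]; exact h2
  have hba : inner ℝ b a = g := by rw [real_inner_comm]; exact hab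
  rw [ha, hb, hab, one_mul] at h3
  obtain ⟨m, hm⟩ : ∃ m : ℝ, m = 1 - g * g := ⟨_, rfl⟩
  obtain ⟨D, hDdef⟩ : ∃ D : ℝ, D = 1 - g * g - p * p - q * q + 2 * g * p * q := ⟨_, rfl⟩
  rw [← hDdef] at hD
  rw [← hm] at hg h3
  have hsq : √D * √D = D := Real.mul_self_sqrt hD
  have hm0 : m ≠ 0 := hg.ne'
  have hatt : att g p q a b = ((p - g * q) / m) • a + ((q - g * p) / m) • b +
      (√D / m) • cr a b := by
    rw [att, ← hDdef, ← hm]
  obtain ⟨x, hx⟩ : ∃ x : ℝ, x = (p - g * q) / m := ⟨_, rfl⟩
  obtain ⟨y, hy⟩ : ∃ y : ℝ, y = (q - g * p) / m := ⟨_, rfl⟩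
  obtain ⟨z, hz⟩ : ∃ z : ℝ, z = √D / m := ⟨_, rfl⟩
  rw [← hx, ← hy, ← hz] at hatt
  have hx' : x * m = p - g * q := by rw [hx, div_mul_cancel₀ _ hm0]
  have hy' : y * m = q - g * p := by rw [hy, div_mul_cancel₀ _ hm0]
  have hz' : z * m = √D := by rw [hz, div_mul_cancel₀ _ hm0]
  have e1 : x + y * g = p := by
    apply mul_right_cancel₀ hm0
    rw [add_mul, mul_right_comm y g m, hx', hy', hm]
    ring
  have e2 : x * g + y = q := by
    apply mul_right_cancel₀ hm0
    rw [add_mul, mul_right_comm x g m, hx', hy', hm]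
    ring
  have e3 : x * p + y * q + z * z * m = 1 := by
    apply mul_right_cancel₀ hm0
    have h4 : (x * p + y * q + z * z * m) * m = (x * m) * p + (y * m) * q + (z * m) * (z * m) := by
      ring
    rw [h4, hx', hy', hz', hsq, hDdef, hm]
    ring
  refine ⟨?_, ?_, ?_⟩
  · rw [hatt, inner_add_right, inner_add_right, inner_smul_right, inner_smul_right,
      inner_smul_right, ha, hab, h1', mul_one, mul_zero, add_zero]
    exact e1
  · rw [hatt, inner_add_left, inner_add_left, inner_smul_left, inner_smul_left,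
      inner_smul_left, hb, hab, h2]
    simp only [conj_trivial, mul_zero, add_zero, mul_one]
    exact e2
  · rw [hatt]
    simp only [inner_add_left, inner_add_right, inner_smul_left, inner_smul_right, conj_trivial,
      ha, hb, hab, hba, h1, h2, h1', h2', h3, mul_zero, add_zero, zero_add, mul_one]
    rw [← e3, ← e1, ← e2]
    ring

theorem continuous_att {X : Type} [TopologicalSpace X] {g p q : X → ℝ} {a b : X → E3}
    (hg : Continuous g) (hp : Continuous p) (hq : Continuous q) (ha : Continuous a)
    (hb : Continuous b) (h : ∀ x, 1 - g x * g x ≠ 0) :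
    Continuous fun x => att (g x) (p x) (q x) (a x) (b x) := by
  unfold att
  have h1 : Continuous fun x => (p x - g x * q x) / (1 - g x * g x) :=
    (hp.sub (hg.mul hq)).div (continuous_const.sub (hg.mul hg)) h
  have h2 : Continuous fun x => (q x - g x * p x) / (1 - g x * g x) :=
    (hq.sub (hg.mul hp)).div (continuous_const.sub (hg.mul hg)) h
  have h3 : Continuous fun x => √(1 - g x * g x - p x * p x - q x * q x + 2 * g x * p x * q x) /
      (1 - g x * g x) := by
    refine Continuous.div ?_ (continuous_const.sub (hg.mul hg)) h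
    exact Real.continuous_sqrt.comp (by fun_prop)
  exact ((h1.smul ha).add (h2.smul hb)).add (h3.smul (continuous_cr ha hb))

/-- The Gram determinant of three planar unit vectors. -/
theorem det_plane (x y z : ℝ) :
    1 - cos (x - z) * cos (x - z) - cos (x - y) * cos (x - y) - cos (y - z) * cos (y - z) +
      2 * cos (x - z) * cos (x - y) * cos (y - z) = 0 := by
  have h1 : cos (x - z) = cos (x - y) * cos (y - z) - sin (x - y) * sin (y - z) := by
    rw [← cos_add]; ring_nf
  have h2 := sin_sq_add_cos_sq (x - y)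
  have h3 := sin_sq_add_cos_sq (y - z)
  rw [h1]
  have h4 : sin (x - y) ^ 2 = 1 - cos (x - y) ^ 2 := by linarith
  have h5 : sin (y - z) ^ 2 = 1 - cos (y - z) ^ 2 := by linarith
  have h6 : (sin (x - y) * sin (y - z)) ^ 2 = (1 - cos (x - y) ^ 2) * (1 - cos (y - z) ^ 2) := by
    rw [mul_pow, h4, h5]
  nlinarith [h6]

/-- The planar case. -/
theorem att_plane {x y z : ℝ} (e f : E3) (h : sin (x - z) ≠ 0) :
    att (cos (x - z)) (cos (x - y)) (cos (y - z)) (cos x • e + sin x • f)
      (cos z • e + sin z • f) = cos y • e + sin y • f := by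
  have h0 := det_plane x y z
  have hs : 1 - cos (x - z) * cos (x - z) = sin (x - z) * sin (x - z) := by
    have := sin_sq_add_cos_sq (x - z)
    nlinarith
  have h1 : cos (x - y) - cos (x - z) * cos (y - z) = sin (x - z) * sin (y - z) := by
    have : cos (x - y) = cos ((x - z) - (y - z)) := by ring_nf
    rw [this, cos_sub]
    ring
  have h2 : cos (y - z) - cos (x - z) * cos (x - y) = sin (x - z) * sin (x - y) := by
    have : cos (y - z) = cos ((x - z) - (x - y)) := by ring_nf
    rw [this, cos_sub]
    ring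
  unfold att
  rw [show 1 - cos (x - z) * cos (x - z) - cos (x - y) * cos (x - y) - cos (y - z) * cos (y - z) +
      2 * cos (x - z) * cos (x - y) * cos (y - z) = 0 from h0, Real.sqrt_zero, zero_div, zero_smul,
    add_zero, h1, h2, hs, mul_div_mul_left _ _ h, mul_div_mul_left _ _ h]
  have e1 : cos y * sin (x - z) = sin (y - z) * cos x + sin (x - y) * cos z := by
    rw [sin_sub, sin_sub, sin_sub]; ring
  have e2 : sin y * sin (x - z) = sin (y - z) * sin x + sin (x - y) * sin z := by
    rw [sin_sub, sin_sub, sin_sub]; ring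
  have e3 : cos y = sin (y - z) / sin (x - z) * cos x + sin (x - y) / sin (x - z) * cos z := by
    field_simp
    exact e1
  have e4 : sin y = sin (y - z) / sin (x - z) * sin x + sin (x - y) / sin (x - z) * sin z := by
    field_simp
    exact e2
  rw [e3, e4]
  module

end Pool.Agent.HCH
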