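import Pool.Agent.HCH.Final

/-!
# Hierarchical chains: the theorem and its consequence for lacunary lengths
-/

set_option autoImplicit false

namespace Pool.Agent.HCH

open Real Finset Pool.Agent.Lib_helper54.Flat

/-- `Hier` depends only on the first `n` lengths. -/
theorem Hier.congr {n : ℕ} {l l' : ℕ → ℝ} {s : ℝ} (h : ∀ k, k < n → l k = l' k)
    (hH : Hier n l s) : Hier n l' s := by
  intro a K b h1 h2 h3 h4
  have h5 := hH a K b h1 h2 h3 fun k h5 h6 => by
    rw [h k (by omega), h K (by omega)]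
    exact h4 k h5 h6
  rw [h K (by omega), sum_congr rfl fun k hk => h k (by have := mem_Icc.1 hk; omega)] at h5
  exact h5

/-- `Gen` depends only on the first `n` lengths. -/
theorem Gen.congr {n : ℕ} {l l' θ : ℕ → ℝ} {s : ℝ} (h : ∀ k, k < n → l k = l' k)
    (hG : Gen n l θ s) : Gen n l' θ s := by
  intro σ hσ a b h1 h2 h3
  refine hG σ hσ a b h1 h2 fun k h4 h5 => ?_
  rw [h k (by omega), h a (by omega), h b (by omega)]
  exact h3 k h4 h5

/-- The theorem. -/
theorem main {n : ℕ} {P Q : Fin (n + 1) → E3} {s : ℝ} (hs : 0 < s) (hP : IsSimple P)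
    (cP : Coplanar ℝ (Set.range P)) (cQ : Coplanar ℝ (Set.range Q)) (hQ : Q ∈ freeSpace P)
    (hH : Hier n (ll P) s) (hG : Gen n (ll P) (jointAngle P) s) :
    JoinedIn (freeSpace P) P Q := by
  obtain ⟨l, hl⟩ : ∃ l, l = len P := ⟨_, rfl⟩
  obtain ⟨θ, hθ⟩ : ∃ θ, θ = jointAngle P := ⟨_, rfl⟩
  have hD : Data P l θ := by rw [hl, hθ]; exact data_of_simple hP
  obtain ⟨hQs, hQl, hQa⟩ := hQ
  have hDQ : Data Q l θ := ⟨hD.pos, fun i => by rw [hQl i]; exact hD.len i,
    fun i j hij => by rw [hQa i j hij]; exact hD.ang i j hij, hD.ang_nonneg, hD.ang_le⟩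
  have hll : ∀ k, k < n → ll P k = l k := fun k hk => hD.len' hk
  have hH' := hH.congr hll
  have hG' := hG.congr hll
  rw [← hθ] at hG'
  obtain ⟨s', h1, h2, h3, h4⟩ : ∃ s' : ℝ, 0 < s' ∧ s' ≤ 1 ∧ Hier n l s' ∧ Gen n l θ s' := by
    by_cases hn : 2 ≤ n
    · refine ⟨s, hs, ?_, hH', hG'⟩
      have h5 := hG' (fun _ => 1) (fun _ => Or.inl rfl) 0 1 (by omega) (by omega)
        fun k h6 h7 => by omega
      exact h5.trans (abs_sin_le_one _)
    · refine ⟨1, one_pos, le_rfl, ?_, ?_⟩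
      · intro a K b h5 h6 h7 _
        have e1 : a = K := by omega
        have e2 : K = b := by omega
        rw [e1, ← e2, Icc_self, sum_singleton, sub_self, one_mul]
        exact hD.pos K
      · intro σ _ a b h5 h6
        omega
  exact criterion hP hD hDQ cP cQ (fun i j hi hj h => rk_inj hi hj h)
    (dominated_of_hier hD hP h1 h2 h3 h4) (dominated_of_hier hDQ hQs h1 h2 h3 h4)

/-- A positive lower bound on a finite set. -/
theorem exists_lower {ι : Type} (F : Finset ι) (f : ι → ℝ) (h : ∀ x ∈ F, 0 < f x) :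
    ∃ s : ℝ, 0 < s ∧ s ≤ 1 ∧ ∀ x ∈ F, s ≤ f x := by
  classical
  induction F using Finset.induction_on with
  | empty => exact ⟨1, one_pos, le_rfl, fun x hx => absurd hx (notMem_empty x)⟩
  | insert y F hy ih =>
    obtain ⟨s, h1, h2, h3⟩ := ih fun x hx => h x (mem_insert_of_mem hx)
    refine ⟨min s (f y), lt_min h1 (h y (mem_insert_self y F)), (min_le_left _ _).trans h2,
      fun x hx => ?_⟩
    rcases mem_insert.1 hx with hx | hx
    · rw [hx]
      exact min_le_right _ _
    · exact (min_le_left _ _).trans (h3 x hx)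

/-- The uniform bound for generic angles. -/
theorem exists_gen (n : ℕ) (θ : ℕ → ℝ)
    (h : ∀ σ : ℕ → ℝ, (∀ k, σ k = 1 ∨ σ k = -1) → ∀ a b, a < b → b < n →
      sin (∑ k ∈ Ico a b, σ k * θ k) ≠ 0) :
    ∃ s : ℝ, 0 < s ∧ s ≤ 1 ∧ ∀ σ : ℕ → ℝ, (∀ k, σ k = 1 ∨ σ k = -1) → ∀ a b, a < b → b < n →
      s ≤ |sin (∑ k ∈ Ico a b, σ k * θ k)| := by
  classical
  obtain ⟨s, h1, h2, h3⟩ := exists_lower
    (((range n).powerset ×ˢ (range n ×ˢ range n)).filter fun x => x.2.1 < x.2.2)
    (fun x => |sin (∑ k ∈ Ico x.2.1 x.2.2, (if k ∈ x.1 then 1 else -1) * θ k)|) (by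
      rintro ⟨S, a, b⟩ hx
      rw [mem_filter, mem_product, mem_product, mem_range, mem_range] at hx
      refine abs_pos.2 (h (fun k => if k ∈ S then 1 else -1) (fun k => ?_) a b hx.2 hx.1.2.2)
      by_cases hk : k ∈ S
      · exact Or.inl (if_pos hk)
      · exact Or.inr (if_neg hk))
  refine ⟨s, h1, h2, fun σ hσ a b hab hb => ?_⟩
  have h4 := h3 ((range n).filter fun k => σ k = 1, a, b) (by
    rw [mem_filter, mem_product, mem_product, mem_range, mem_range, mem_powerset]
    exact ⟨⟨filter_subset _ _, by simp only; omega, hb⟩, hab⟩)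
  have h5 : ∑ k ∈ Ico a b, (if k ∈ (range n).filter (fun k => σ k = 1) then 1 else -1) * θ k =
      ∑ k ∈ Ico a b, σ k * θ k := by
    refine sum_congr rfl fun k hk => ?_
    rw [mem_Ico] at hk
    congr 1
    by_cases hk1 : σ k = 1
    · rw [if_pos (mem_filter.2 ⟨mem_range.2 (by omega), hk1⟩), hk1]
    · have h6 : k ∉ (range n).filter (fun k => σ k = 1) := fun h => hk1 (mem_filter.1 h).2
      rw [if_neg h6, (hσ k).resolve_left hk1]
  simp only [h5] at h4
  exact h4

/-- Lacunary lengths are hierarchical. -/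
theorem hier_of_lacunary {n : ℕ} {l : ℕ → ℝ} {s C : ℝ} (hs : 0 < s) (hl : ∀ k, k < n → 0 < l k)
    (hC : C = n / s + 1)
    (h : ∀ i j, i < n → j < n → i ≠ j → C * l i ≤ l j ∨ C * l j ≤ l i) : Hier n l s := by
  classical
  intro a K b h1 h2 h3 h4
  have hlK := hl K (by omega)
  have hn : (0 : ℝ) < n := by
    have : 0 < n := by omega
    exact_mod_cast this
  have hC1 : 1 < C := by
    rw [hC]
    have : 0 < (n : ℝ) / s := by positivity
    linarith
  have hC0 : 0 < C := one_pos.trans hC1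
  have hK : K ∈ Icc a b := mem_Icc.2 ⟨h1, h2⟩
  rw [← add_sum_erase _ _ hK, add_sub_cancel_left]
  have h5 : ∑ k ∈ (Icc a b).erase K, l k ≤ ∑ k ∈ (Icc a b).erase K, l K / C := by
    refine sum_le_sum fun k hk => ?_
    rw [mem_erase, mem_Icc] at hk
    rw [le_div_iff₀ hC0]
    rcases h k K (by omega) (by omega) hk.1 with h6 | h6
    · linarith
    · have h7 := h4 k hk.2.1 hk.2.2
      have h8 : 1 * l K < C * l K := mul_lt_mul_of_pos_right hC1 hlK
      linarith
  rw [sum_const, nsmul_eq_mul] at h5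
  have h6 : (((Icc a b).erase K).card : ℝ) ≤ n := by
    have h7 : ((Icc a b).erase K).card ≤ (range n).card := by
      apply card_le_card
      intro k hk
      rw [mem_erase, mem_Icc] at hk
      rw [mem_range]
      omega
    rw [card_range] at h7
    exact_mod_cast h7
  have h7 : (n : ℝ) * (l K / C) < s * l K := by
    rw [← mul_div_assoc, div_lt_iff₀ hC0, hC]
    have : s * l K * (n / s + 1) = n * l K + s * l K := by field_simp
    rw [this]
    have := mul_pos hs hlK
    linarith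
  have h8 : (((Icc a b).erase K).card : ℝ) * (l K / C) ≤ n * (l K / C) :=
    mul_le_mul_of_nonneg_right h6 (by positivity)
  linarith

/-- The consequence: generic joint angles and lacunary lengths. -/
theorem lacunary (n : ℕ) (θ : ℕ → ℝ)
    (h : ∀ σ : ℕ → ℝ, (∀ k, σ k = 1 ∨ σ k = -1) → ∀ a b, a < b → b < n →
      sin (∑ k ∈ Ico a b, σ k * θ k) ≠ 0) :
    ∃ C : ℝ, ∀ P Q : Fin (n + 1) → E3, IsSimple P → Coplanar ℝ (Set.range P) →
      Coplanar ℝ (Set.range Q) → Q ∈ freeSpace P →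
      (∀ k, k + 2 ≤ n → jointAngle P k = θ k) →
      (∀ i j, i < n → j < n → i ≠ j → C * ll P i ≤ ll P j ∨ C * ll P j ≤ ll P i) →
      JoinedIn (freeSpace P) P Q := by
  obtain ⟨s, hs, -, hs2⟩ := exists_gen n θ h
  refine ⟨n / s + 1, fun P Q hP cP cQ hQ hang hlac => ?_⟩
  refine main hs hP cP cQ hQ (hier_of_lacunary hs (fun k hk => ?_) rfl hlac) ?_
  · have h1 := (data_of_simple hP).len' hk
    unfold ll
    rw [h1]
    exact (data_of_simple hP).pos k
  · intro σ hσ a b hab hb _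
    have h1 : ∑ k ∈ Ico a b, σ k * jointAngle P k = ∑ k ∈ Ico a b, σ k * θ k := by
      refine sum_congr rfl fun k hk => ?_
      rw [mem_Ico] at hk
      rw [hang k (by omega)]
    rw [h1]
    exact hs2 σ hσ a b hab hb

end Pool.Agent.HCH
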