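import Pool.Agent.HCH.Main

/-!
# The criterion
-/

set_option autoImplicit false

namespace Pool.Agent.HCH

open Real Finset Pool.Agent.Lib_helper54.Flat

/-- The extended sequence of angles: two additional directions at the ends. -/
noncomputable def ext (n : ℕ) (ω ω' : ℝ) (α : ℕ → ℝ) (k : ℕ) : ℝ :=
  if k = 0 then ω else if k ≤ n then α (k - 1) else ω'

/-- The extended ranking. -/
def extr (n M : ℕ) (r : ℕ → ℕ) (k : ℕ) : ℕ :=
  if k = 0 then M else if k ≤ n then r (k - 1) else M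

theorem ext_zero (n : ℕ) (ω ω' : ℝ) (α : ℕ → ℝ) : ext n ω ω' α 0 = ω := if_pos rfl

theorem ext_succ (n : ℕ) (ω ω' : ℝ) (α : ℕ → ℝ) {k : ℕ} (hk : k < n) :
    ext n ω ω' α (k + 1) = α k := by
  unfold ext
  rw [if_neg (by omega), if_pos (by omega), Nat.add_sub_cancel]

theorem ext_last (n : ℕ) (ω ω' : ℝ) (α : ℕ → ℝ) : ext n ω ω' α (n + 1) = ω' := by
  unfold ext
  rw [if_neg (by omega), if_neg (by omega)]

theorem extr_succ (n M : ℕ) (r : ℕ → ℕ) {k : ℕ} (hk : k < n) :
    extr n M r (k + 1) = r k := by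
  unfold extr
  rw [if_neg (by omega), if_pos (by omega), Nat.add_sub_cancel]

theorem extr_zero (n M : ℕ) (r : ℕ → ℕ) : extr n M r 0 = M := if_pos rfl

theorem extr_last (n M : ℕ) (r : ℕ → ℕ) : extr n M r (n + 1) = M := by
  unfold extr
  rw [if_neg (by omega), if_neg (by omega)]

/-- visibility in the extended sequence -/
theorem vis_extr {n M : ℕ} {r : ℕ → ℕ} {a b : ℕ} (hb : b < n) :
    Vis (extr n M r) (a + 1) (b + 1) ↔ Vis r a b := by
  constructor
  · rintro ⟨h1, h2⟩
    have hab : a < b := by omega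
    refine ⟨hab, fun k hk1 hk2 => ?_⟩
    have h3 := h2 (k + 1) (by omega) (by omega)
    rw [extr_succ n M r (by omega : k < n), extr_succ n M r (by omega : a < n),
      extr_succ n M r hb] at h3
    exact h3
  · rintro ⟨h1, h2⟩
    refine ⟨by omega, fun k hk1 hk2 => ?_⟩
    obtain ⟨k, rfl⟩ : ∃ k', k = k' + 1 := ⟨k - 1, by omega⟩
    rw [extr_succ n M r (by omega : k < n), extr_succ n M r (by omega : a < n),
      extr_succ n M r hb]
    exact h2 k (by omega) (by omega)

/-- **The criterion.** Two flat configurations of a chain, in which the dominant parts of all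
chords with respect to the same ranking of the links are longer than the rests, are connected. -/
theorem criterion {n : ℕ} {P Q : Fin (n + 1) → E3} {l θ : ℕ → ℝ} (hP : IsSimple P)
    (hD : Data P l θ) (hDQ : Data Q l θ)
    (cP : Coplanar ℝ (Set.range P)) (cQ : Coplanar ℝ (Set.range Q))
    {r : ℕ → ℕ} (hr : ∀ i j, i < n → j < n → r i = r j → i = j) (gP : Dominated P l r)
    (gQ : Dominated Q l r) : JoinedIn (freeSpace P) P Q := by
  obtain ⟨c, hcc, hc⟩ := exists_normal cP
  obtain ⟨c', hcc', hc'⟩ := exists_normal cQ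
  obtain ⟨a, b, φ, hON, rfl⟩ := exists_two_frames hcc hcc'
  have hON' := ON_rot hON φ
  obtain ⟨b', hb'⟩ : ∃ b', b' = cos φ • b + sin φ • c := ⟨_, rfl⟩
  rw [← hb'] at hON'
  obtain ⟨α, hα⟩ := exists_angles hD hON hc
  obtain ⟨β, hβ⟩ := exists_angles hDQ hON' hc'
  obtain ⟨sP, dP⟩ := gP a b c hON α hα
  obtain ⟨sQ, dQ⟩ := gQ a b' _ hON' β hβ
  -- the additional directions
  obtain ⟨ω, hω⟩ := exists_generic ((range n).image α ∪ (range n).image β)
  obtain ⟨ω', hω'⟩ := exists_generic ({ω} ∪ ((range n).image α ∪ (range n).image β))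
  have hωα : ∀ k, k < n → sin (ω - α k) ≠ 0 := fun k hk =>
    hω _ (mem_union_left _ (mem_image_of_mem _ (mem_range.2 hk)))
  have hωβ : ∀ k, k < n → sin (ω - β k) ≠ 0 := fun k hk =>
    hω _ (mem_union_right _ (mem_image_of_mem _ (mem_range.2 hk)))
  have hωα' : ∀ k, k < n → sin (α k - ω') ≠ 0 := by
    intro k hk h
    refine hω' _ (mem_union_right _ (mem_union_left _ (mem_image_of_mem _ (mem_range.2 hk)))) ?_
    rw [← neg_sub, sin_neg, h, neg_zero]
  have hωβ' : ∀ k, k < n → sin (β k - ω') ≠ 0 := by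
    intro k hk h
    refine hω' _ (mem_union_right _ (mem_union_right _ (mem_image_of_mem _ (mem_range.2 hk)))) ?_
    rw [← neg_sub, sin_neg, h, neg_zero]
  have hωω : sin (ω - ω') ≠ 0 := by
    intro h
    refine hω' ω (mem_union_left _ (mem_singleton_self _)) ?_
    rw [← neg_sub, sin_neg, h, neg_zero]
  obtain ⟨A, hA⟩ : ∃ A, A = ext n ω ω' α := ⟨_, rfl⟩
  obtain ⟨B, hB⟩ : ∃ B, B = ext n ω ω' β := ⟨_, rfl⟩
  have A0 : A 0 = ω := by rw [hA]; exact ext_zero n ω ω' α
  have B0 : B 0 = ω := by rw [hB]; exact ext_zero n ω ω' β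
  have A1 : A (n + 1) = ω' := by rw [hA]; exact ext_last n ω ω' α
  have B1 : B (n + 1) = ω' := by rw [hB]; exact ext_last n ω ω' β
  have AS : ∀ k, k < n → A (k + 1) = α k := fun k hk => by rw [hA]; exact ext_succ n ω ω' α hk
  have BS : ∀ k, k < n → B (k + 1) = β k := fun k hk => by rw [hB]; exact ext_succ n ω ω' β hk
  obtain ⟨M, hM⟩ : ∃ M, M = (range n).sup r + 1 := ⟨_, rfl⟩
  have hrM : ∀ k, k < n → r k < M := by
    intro k hk
    have := le_sup (f := r) (mem_range.2 hk)
    omega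
  have hV : Vis (extr n M r) 0 (n + 1) := by
    refine ⟨by omega, fun k h1 h2 => ?_⟩
    obtain ⟨k, rfl⟩ : ∃ k', k = k' + 1 := ⟨k - 1, by omega⟩
    rw [extr_succ n M r (by omega : k < n), extr_zero, extr_last]
    exact ⟨hrM k (by omega), hrM k (by omega)⟩
  have hinj : ∀ i j, 0 < i → i < n + 1 → 0 < j → j < n + 1 →
      extr n M r i = extr n M r j → i = j := by
    intro i j h1 h2 h3 h4 h5
    obtain ⟨i, rfl⟩ : ∃ k', i = k' + 1 := ⟨i - 1, by omega⟩
    obtain ⟨j, rfl⟩ : ∃ k', j = k' + 1 := ⟨j - 1, by omega⟩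
    rw [extr_succ n M r (by omega : i < n), extr_succ n M r (by omega : j < n)] at h5
    rw [hr i j (by omega) (by omega) h5]
  have hsin : ∀ x y, 0 ≤ x → y ≤ n + 1 → Vis (extr n M r) x y →
      sin (A x - A y) ≠ 0 ∧ sin (B x - B y) ≠ 0 := by
    intro x y _ hy hxy
    have h1 := hxy.1
    rcases Nat.eq_zero_or_pos x with hx | hx
    · rw [hx, A0, B0]
      rcases Nat.eq_or_lt_of_le hy with h2 | h2
      · rw [h2, A1, B1]
        exact ⟨hωω, hωω⟩
      · obtain ⟨y, rfl⟩ : ∃ k', y = k' + 1 := ⟨y - 1, by omega⟩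
        rw [AS y (by omega), BS y (by omega)]
        exact ⟨hωα y (by omega), hωβ y (by omega)⟩
    · obtain ⟨x, rfl⟩ : ∃ k', x = k' + 1 := ⟨x - 1, by omega⟩
      rw [AS x (by omega), BS x (by omega)]
      rcases Nat.eq_or_lt_of_le hy with h2 | h2
      · rw [h2, A1, B1]
        exact ⟨hωα' x (by omega), hωβ' x (by omega)⟩
      · obtain ⟨y, rfl⟩ : ∃ k', y = k' + 1 := ⟨y - 1, by omega⟩
        rw [AS y (by omega), BS y (by omega)]
        have h3 := (vis_extr (by omega : y < n)).1 hxy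
        exact ⟨sP x y (by omega) h3, sQ x y (by omega) h3⟩
  -- the moving frame
  let bt : unitInterval → E3 := fun t => cos (t * φ) • b + sin (t * φ) • c
  have hONt : ∀ t : unitInterval, ON a (bt t) (-sin (t * φ) • b + cos (t * φ) • c) :=
    fun t => ON_rot hON (t * φ)
  have cbt : Continuous bt := by fun_prop
  have cpl : ∀ x : ℝ, Continuous fun t => pl a (bt t) x := by
    intro x
    unfold pl
    exact continuous_const.add (cbt.const_smul (sin x))
  have bt0 : bt 0 = b := by simp [bt]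
  have bt1 : bt 1 = b' := by rw [hb']; simp [bt]
  obtain ⟨u, -, -, u3, u4, u5, u6⟩ := exists_family (A := A) (B := B) (r := extr n M r)
    (n + 1) 0 (n + 1) (by omega) (by omega) hV hinj hsin (fun t => pl a (bt t) ω)
    (fun t => pl a (bt t) ω') (cpl ω) (cpl ω')
    (fun t => by rw [inner_pl (hONt t), sub_self, cos_zero])
    (fun t => by rw [inner_pl (hONt t), sub_self, cos_zero])
    (fun t => by
      rw [inner_pl (hONt t)]
      unfold gg
      rw [A0, B0, A1, B1]
      ring)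
  have hu0 : ∀ k, k < n → u (k + 1) 0 = pl a b (α k) := by
    intro k hk
    have h1 := u5 a b (by rw [bt0, A0]; rfl) (by rw [bt0, A1]; rfl) (k + 1) (by omega) (by omega)
    rw [AS k hk] at h1
    exact h1
  have hu1 : ∀ k, k < n → u (k + 1) 1 = pl a b' (β k) := by
    intro k hk
    have h1 := u6 a b' (by rw [bt1, B0]; rfl) (by rw [bt1, B1]; rfl) (k + 1) (by omega) (by omega)
    rw [BS k hk] at h1
    exact h1
  -- joint angles
  have aP : ∀ k, k + 2 ≤ n → cos (θ k) = -inner ℝ (pl a b (α k)) (pl a b (α (k + 1))) :=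
    fun k hk => cos_angle_links hD hk (hα k (by omega)) (hα (k + 1) (by omega)) (norm_pl hON _)
      (norm_pl hON _)
  have aQ : ∀ k, k + 2 ≤ n → cos (θ k) = -inner ℝ (pl a b' (β k)) (pl a b' (β (k + 1))) :=
    fun k hk => cos_angle_links hDQ hk (hβ k (by omega)) (hβ (k + 1) (by omega)) (norm_pl hON' _)
      (norm_pl hON' _)
  have nw : ∀ (t : unitInterval) (k : ℕ), k < n → ‖u (k + 1) t‖ = 1 := fun t k hk =>
    norm_of_inner ((u3 (k + 1) (by omega) (by omega)).2 t)
  have hw : ∀ (t : unitInterval) (x y : ℕ), y < n → Vis r x y →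
      inner ℝ (u (x + 1) t) (u (y + 1) t) = (1 - (t : ℝ)) * inner ℝ (pl a b (α x)) (pl a b (α y)) +
        (t : ℝ) * inner ℝ (pl a b' (β x)) (pl a b' (β y)) := by
    intro t x y hy hxy
    have hx : x < n := hxy.1.trans hy
    rw [u4 (x + 1) (y + 1) (by omega) (by omega) ((vis_extr hy).2 hxy) t]
    unfold gg
    rw [AS x hx, BS x hx, AS y hy, BS y hy, inner_pl hON, inner_pl hON']
  have key : ∀ (t : unitInterval) (p : E3), conf n p l (fun k => u (k + 1) t) ∈ freeSpace P :=
    fun t p => conf_mem (w := fun k => u (k + 1) t) hD (fun k hk => theta_pos hD hP hk) hr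
      (fun k => norm_pl hON _) (fun k => norm_pl hON' _) (nw t) aP aQ dP dQ t.2.1 t.2.2 (hw t) p
  -- the motion
  obtain ⟨p1, hp1⟩ : ∃ p1, p1 = vx P 0 := ⟨_, rfl⟩
  obtain ⟨p2, hp2⟩ : ∃ p2, p2 = vx Q 0 := ⟨_, rfl⟩
  let pt : unitInterval → E3 := fun t => (1 - (t : ℝ)) • p1 + (t : ℝ) • p2
  have cpt : Continuous pt := by fun_prop
  have pt0 : pt 0 = p1 := by simp [pt]
  have pt1 : pt 1 = p2 := by simp [pt]
  refine ⟨⟨⟨fun t => conf n (pt t) l (fun k => u (k + 1) t), ?_⟩, ?_, ?_⟩, ?_⟩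
  · rw [continuous_pi_iff]
    intro i
    have hi := i.isLt
    exact continuous_vt l cpt i.val fun m hm => (u3 (m + 1) (by omega) (by omega)).1
  · funext i
    have hi := i.isLt
    change vt (pt 0) l (fun k => u (k + 1) 0) i.val = P i
    rw [← vx_val P i, vx_vt hα i.val (by omega), pt0, hp1]
    unfold vt
    congr 1
    refine sum_congr rfl fun m hm => ?_
    exact congrArg (fun v => l m • v) (hu0 m (by have := mem_range.1 hm; omega))
  · funext i
    have hi := i.isLt
    change vt (pt 1) l (fun k => u (k + 1) 1) i.val = Q i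
    rw [← vx_val Q i, vx_vt hβ i.val (by omega), pt1, hp2]
    unfold vt
    congr 1
    refine sum_congr rfl fun m hm => ?_
    exact congrArg (fun v => l m • v) (hu1 m (by have := mem_range.1 hm; omega))
  · intro t
    exact key t (pt t)

end Pool.Agent.HCH
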