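import Pool.Agent.HCH.Main

/-!
# Plane geometry: one, two or three dominant links
-/

set_option autoImplicit false

namespace Pool.Agent.HCH

open Real Finset Pool.Agent.Lib_helper54.Flat

section

variable {a b c : E3}

/-- The inner product with a unit vector of the plane. -/
theorem abs_inner_pl_le (h : ON a b c) (v : E3) (x : ℝ) : |inner ℝ v (pl a b x)| ≤ ‖v‖ := by
  have h1 := abs_real_inner_le_norm v (pl a b x)
  rwa [norm_pl h, mul_one] at h1

/-- the normal -/
theorem inner_nor (h : ON a b c) (x y : ℝ) :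
    inner ℝ (pl a b x) (pl a b (y + π / 2)) = sin (x - y) := by
  rw [inner_pl h, ← sub_sub, cos_sub_pi_div_two]

/-- Two dominant terms. -/
theorem two_terms (h : ON a b c) {x y L s c1 : ℝ} (hL : 0 < L) (hs : s ≤ |sin (y - x)|) :
    L * s ≤ ‖c1 • pl a b x + L • pl a b y‖ := by
  have h1 := abs_inner_pl_le h (c1 • pl a b x + L • pl a b y) (x + π / 2)
  rw [inner_add_left, inner_smul_left, inner_smul_left, inner_nor h, inner_nor h,
    sub_self, sin_zero] at h1
  simp only [conj_trivial, mul_zero, zero_add] at h1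
  have h3 : L * s ≤ |L * sin (y - x)| := by
    rw [abs_mul, abs_of_pos hL]
    exact mul_le_mul_of_nonneg_left hs hL.le
  linarith

/-- One dominant term. -/
theorem one_term (h : ON a b c) {y L : ℝ} (hL : 0 < L) : ‖L • pl a b y‖ = L := by
  rw [norm_smul, norm_pl h, mul_one, Real.norm_eq_abs, abs_of_pos hL]

/-- The position of a crossing parameter. -/
theorem cross_bound {D g p c1 l1 L R s : ℝ} (hs : s ≤ |D|) (hs0 : 0 < s) (h1 : R < |g|)
    (h2 : |p * D - g| ≤ R) (h3 : |c1 * D - g| ≤ R) (h4 : 0 ≤ c1) (h5 : |p * D| ≤ L + R)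
    (h6 : L + R ≤ s * l1) (hl1 : 0 ≤ l1) : 0 ≤ p ∧ p ≤ l1 := by
  rw [abs_le] at h2 h3
  have h7 : 0 < (p * D) * (c1 * D) := by
    rcases lt_or_ge 0 g with h | h
    · rw [abs_of_pos h] at h1
      exact mul_pos (by linarith [h2.1]) (by linarith [h3.1])
    · rw [abs_of_nonpos h] at h1
      exact mul_pos_of_neg_of_neg (by linarith [h2.2]) (by linarith [h3.2])
  constructor
  · by_contra hneg
    push Not at hneg
    have : (p * D) * (c1 * D) = p * (c1 * (D * D)) := by ring
    rw [this] at h7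
    have h8 : 0 ≤ c1 * (D * D) := mul_nonneg h4 (mul_self_nonneg D)
    nlinarith
  · have h8 : |p| * |D| ≤ l1 * |D| := by
      rw [← abs_mul]
      exact h5.trans (h6.trans (by rw [mul_comm]; exact mul_le_mul_of_nonneg_left hs hl1))
    exact (le_abs_self p).trans (le_of_mul_le_mul_right h8 (hs0.trans_le hs))

/-- Three dominant terms. -/
theorem three_terms (h : ON a b c) {x y z L R s l1 l2 : ℝ} {Z : E3} {zx zy : ℝ}
    (hZ : Z = zx • a + zy • b) (hR : ‖Z - L • pl a b y‖ ≤ R) (hL : 0 < L) (hs0 : 0 < s)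
    (h1 : s ≤ |sin (x - z)|) (h2 : s ≤ |sin (y - x)|) (h3 : s ≤ |sin (y - z)|)
    (hRL : R < s * L) (hl1 : L + R ≤ s * l1) (hl2 : L + R ≤ s * l2)
    (hne : ∀ c1 c2 : ℝ, 0 ≤ c1 → c1 ≤ l1 → 0 ≤ c2 → c2 ≤ l2 →
      c1 • pl a b x + Z + c2 • pl a b z ≠ 0) {c1 c2 : ℝ} (h10 : 0 ≤ c1) (h20 : 0 ≤ c2) :
    R < ‖c1 • pl a b x + L • pl a b y + c2 • pl a b z‖ := by
  by_contra hcon
  push Not at hcon
  have hR0 : 0 ≤ R := (norm_nonneg _).trans hR
  have hl1' : 0 ≤ l1 := by
    by_contra h0
    push Not at h0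
    nlinarith
  have hl2' : 0 ≤ l2 := by
    by_contra h0
    push Not at h0
    nlinarith
  obtain ⟨D, hD⟩ : ∃ D, D = sin (x - z) := ⟨_, rfl⟩
  obtain ⟨fx, hfx⟩ : ∃ fx : ℝ, fx = inner ℝ Z (pl a b (x + π / 2)) := ⟨_, rfl⟩
  obtain ⟨fz, hfz⟩ : ∃ fz : ℝ, fz = inner ℝ Z (pl a b (z + π / 2)) := ⟨_, rfl⟩
  have hba : inner ℝ b a = (0 : ℝ) := by rw [real_inner_comm]; exact h.ab
  have hcoord : ∀ w : ℝ, inner ℝ Z (pl a b (w + π / 2)) = -(zx * sin w) + zy * cos w := by
    intro w
    rw [hZ, pl, cos_add_pi_div_two, sin_add_pi_div_two, inner_add_left, inner_smul_left,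
      inner_smul_left, inner_add_right, inner_add_right, inner_smul_right, inner_smul_right,
      inner_smul_right, inner_smul_right, h.aa, h.bb, h.ab, hba]
    simp only [conj_trivial]
    ring
  have efx := hcoord x
  have efz := hcoord z
  rw [← hfx] at efx
  rw [← hfz] at efz
  -- lower bounds
  have hlow : ∀ w : ℝ, s ≤ |sin (y - w)| →
      R < |L * sin (y - w)| ∧
        |inner ℝ Z (pl a b (w + π / 2)) - L * sin (y - w)| ≤ R ∧
        |inner ℝ Z (pl a b (w + π / 2))| ≤ L + R := by
    intro w hw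
    have e1 := abs_inner_pl_le h (Z - L • pl a b y) (w + π / 2)
    rw [inner_sub_left, inner_smul_left, inner_nor h, conj_trivial] at e1
    have e2 := e1.trans hR
    have e3 : L * s ≤ |L * sin (y - w)| := by
      rw [abs_mul, abs_of_pos hL]
      exact mul_le_mul_of_nonneg_left hw hL.le
    have e4 : |L * sin (y - w)| ≤ L := by
      rw [abs_mul, abs_of_pos hL]
      exact mul_le_of_le_one_right hL.le (abs_sin_le_one _)
    have e6 := abs_sub_abs_le_abs_sub (inner ℝ Z (pl a b (w + π / 2))) (L * sin (y - w))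
    refine ⟨?_, e2, ?_⟩ <;> linarith
  have lx := hlow x h2
  have lz := hlow z h3
  rw [← hfx] at lx
  rw [← hfz] at lz
  -- the two estimates
  have k1 := (abs_inner_pl_le h (c1 • pl a b x + L • pl a b y + c2 • pl a b z)
    (z + π / 2)).trans hcon
  have k2 := (abs_inner_pl_le h (c1 • pl a b x + L • pl a b y + c2 • pl a b z)
    (x + π / 2)).trans hcon
  rw [inner_add_left, inner_add_left, inner_smul_left, inner_smul_left, inner_smul_left,
    inner_nor h, inner_nor h, inner_nor h, sub_self, sin_zero] at k1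
  rw [inner_add_left, inner_add_left, inner_smul_left, inner_smul_left, inner_smul_left,
    inner_nor h, inner_nor h, inner_nor h, sub_self, sin_zero] at k2
  simp only [conj_trivial, mul_zero, zero_add, add_zero] at k1 k2
  have hzx : sin (z - x) = -D := by rw [hD, ← sin_neg, neg_sub]
  rw [← hD] at k1 h1
  rw [hzx] at k2
  have hDpos : 0 < |D| := hs0.trans_le h1
  have hD0 : D ≠ 0 := abs_pos.1 hDpos
  -- the crossing point
  obtain ⟨p, hp⟩ : ∃ p, p = -fz / D := ⟨_, rfl⟩
  obtain ⟨q, hq⟩ : ∃ q, q = fx / D := ⟨_, rfl⟩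
  have ep : p * D = -fz := by rw [hp, div_mul_cancel₀ _ hD0]
  have eq : q * D = fx := by rw [hq, div_mul_cancel₀ _ hD0]
  have hzero : p • pl a b x + Z + q • pl a b z = 0 := by
    have e1 : (p * cos x + zx + q * cos z) * D = 0 := by
      have : (p * cos x + zx + q * cos z) * D = (p * D) * cos x + zx * D + (q * D) * cos z := by
        ring
      rw [this, ep, eq, efx, efz, hD, sin_sub]
      ring
    have e2 : (p * sin x + zy + q * sin z) * D = 0 := by
      have : (p * sin x + zy + q * sin z) * D = (p * D) * sin x + zy * D + (q * D) * sin z := by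
        ring
      rw [this, ep, eq, efx, efz, hD, sin_sub]
      ring
    have e3 := (mul_eq_zero.1 e1).resolve_right hD0
    have e4 := (mul_eq_zero.1 e2).resolve_right hD0
    have e5 : p • pl a b x + Z + q • pl a b z =
        (p * cos x + zx + q * cos z) • a + (p * sin x + zy + q * sin z) • b := by
      rw [hZ]
      unfold pl
      module
    rw [e5, e3, e4, zero_smul, zero_smul, add_zero]
  have hb1 := cross_bound (D := D) (g := -(L * sin (y - z))) (p := p) (c1 := c1) (l1 := l1)
    (L := L) (R := R) (s := s) h1 hs0 (by rw [abs_neg]; exact lz.1) (by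
      have e : p * D - -(L * sin (y - z)) = -(fz - L * sin (y - z)) := by rw [ep]; ring
      rw [e, abs_neg]
      exact lz.2.1) (by
      rw [sub_neg_eq_add]; exact k1) h10 (by rw [ep, abs_neg]; exact lz.2.2) hl1 hl1'
  have hb2 := cross_bound (D := D) (g := L * sin (y - x)) (p := q) (c1 := c2) (l1 := l2)
    (L := L) (R := R) (s := s) h1 hs0 lx.1 (by rw [eq]; exact lx.2.1) (by
      have e : c2 * D - L * sin (y - x) = -(L * sin (y - x) + c2 * -D) := by ring
      rw [e, abs_neg]
      exact k2) h20 (by rw [eq]; exact lx.2.2) hl2 hl2'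
  exact hne p q hb1.1 hb1.2 hb2.1 hb2.2 hzero

end

end Pool.Agent.HCH
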