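import Pool.Agent.Lib_helper54.Flat.Defs

/-!
# Definitions for the theorem on hierarchical chains
-/

set_option autoImplicit false

namespace Pool.Agent.HCH

open Real Finset Pool.Agent.Lib_helper54.Flat

/-- The length of link number `k` (from vertex `k` to vertex `k + 1`). -/
noncomputable def ll {n : ℕ} (P : Fin (n + 1) → E3) (k : ℕ) : ℝ := dist (vx P k) (vx P (k + 1))

/-- The lengths `l` of the `n` links are hierarchical with the constant `s`: for every link `K` and
every run of consecutive links, containing `K`, that are not longer than `K`, the total length of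
the other links of the run is less than `s` times the length of `K`. -/
def Hier (n : ℕ) (l : ℕ → ℝ) (s : ℝ) : Prop :=
  ∀ a K b, a ≤ K → K ≤ b → b < n → (∀ k, a ≤ k → k ≤ b → l k ≤ l K) →
    ∑ k ∈ Icc a b, l k - l K < s * l K

/-- The joint angles `θ` are generic with the constant `s`: for any two links `a < b` such that all
links strictly between them are shorter than both, the sine of every sum, with signs, of the joint
angles between `a` and `b` has absolute value at least `s`. -/
def Gen (n : ℕ) (l θ : ℕ → ℝ) (s : ℝ) : Prop :=
  ∀ σ : ℕ → ℝ, (∀ k, σ k = 1 ∨ σ k = -1) → ∀ a b, a < b → b < n →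
    (∀ k, a < k → k < b → l k < l a ∧ l k < l b) → s ≤ |sin (∑ k ∈ Ico a b, σ k * θ k)|

end Pool.Agent.HCH
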