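import Pool.Agent.HCH.Rec

/-!
# Chords: interpolation of the dominant part
-/

set_option autoImplicit false

namespace Pool.Agent.HCH

open Real Finset Pool.Agent.Lib_helper54.Flat

/-- The norm of a linear combination. -/
theorem norm_sq_sum (s : Finset ℕ) (c : ℕ → ℝ) (w : ℕ → E3) :
    ‖∑ k ∈ s, c k • w k‖ ^ 2 = ∑ k ∈ s, ∑ m ∈ s, c k * c m * inner ℝ (w k) (w m) := by
  rw [← real_inner_self_eq_norm_sq, sum_inner]
  refine sum_congr rfl fun k _ => ?_
  rw [inner_sum]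
  refine sum_congr rfl fun m _ => ?_
  rw [inner_smul_left, inner_smul_right, conj_trivial]
  ring

open Classical in
/-- The dominant part of a chord. -/
noncomputable def dom (s : Finset ℕ) (T : ℕ → Prop) (c : ℕ → ℝ) (w : ℕ → E3) : E3 :=
  ∑ k ∈ s, (if T k then c k else 0) • w k

open Classical in
theorem dom_sub (s : Finset ℕ) (T : ℕ → Prop) (c : ℕ → ℝ) (w : ℕ → E3)
    (hw : ∀ k ∈ s, ‖w k‖ = 1) :
    ‖∑ k ∈ s, c k • w k - dom s T c w‖ ≤ ∑ k ∈ s, if T k then 0 else |c k| := by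
  rw [dom, ← sum_sub_distrib]
  refine (norm_sum_le _ _).trans (sum_le_sum fun k hk => ?_)
  split_ifs with h
  · rw [sub_self, norm_zero]
  · rw [zero_smul, sub_zero, norm_smul, hw k hk, mul_one, Real.norm_eq_abs]

open Classical in
/-- The estimate: if the dominant parts of the chords of both end configurations are large then
the chord does not vanish. -/
theorem chord_ne {s : Finset ℕ} {T : ℕ → Prop} {c : ℕ → ℝ} {w P Q : ℕ → E3} {t R : ℝ}
    (t0 : 0 ≤ t) (t1 : t ≤ 1) (hw : ∀ k ∈ s, ‖w k‖ = 1)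
    (h : ∀ k ∈ s, ∀ m ∈ s, T k → T m →
      inner ℝ (w k) (w m) = (1 - t) * inner ℝ (P k) (P m) + t * inner ℝ (Q k) (Q m))
    (hR : (∑ k ∈ s, if T k then 0 else |c k|) ≤ R)
    (gP : R < ‖dom s T c P‖) (gQ : R < ‖dom s T c Q‖) :
    ∑ k ∈ s, c k • w k ≠ 0 := by
  intro h0
  have hR0 : 0 ≤ R := le_trans (sum_nonneg fun k _ => by split_ifs; exacts [le_rfl, abs_nonneg _]) hR
  have h1 := (dom_sub s T c w hw).trans hR
  rw [h0, zero_sub, norm_neg] at h1
  have h6 : ‖dom s T c w‖ ^ 2 = (1 - t) * ‖dom s T c P‖ ^ 2 + t * ‖dom s T c Q‖ ^ 2 := by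
    unfold dom
    rw [norm_sq_sum, norm_sq_sum, norm_sq_sum, mul_sum, mul_sum, ← sum_add_distrib]
    refine sum_congr rfl fun k hk => ?_
    rw [mul_sum, mul_sum, ← sum_add_distrib]
    refine sum_congr rfl fun m hm => ?_
    split_ifs with hk' hm' hm'
    · rw [h k hk m hm hk' hm']
      ring
    · simp
    · simp
    · simp
  have h7 : R ^ 2 < ‖dom s T c P‖ ^ 2 := by nlinarith
  have h8 : R ^ 2 < ‖dom s T c Q‖ ^ 2 := by nlinarith
  have h9 : ‖dom s T c w‖ ^ 2 ≤ R ^ 2 := pow_le_pow_left₀ (norm_nonneg _) h1 2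
  rw [h6] at h9
  rcases eq_or_lt_of_le t1 with ht | ht
  · rw [ht] at h9
    linarith
  · nlinarith

/-- The vertices of the chain with the first vertex `p`, the lengths `l k` and the directions
`w k`. -/
noncomputable def vt (p : E3) (l : ℕ → ℝ) (w : ℕ → E3) (k : ℕ) : E3 :=
  p + ∑ m ∈ range k, l m • w m

theorem vt_succ (p : E3) (l : ℕ → ℝ) (w : ℕ → E3) (k : ℕ) :
    vt p l w (k + 1) = vt p l w k + l k • w k := by
  unfold vt
  rw [sum_range_succ, add_assoc]

theorem vt_add (p : E3) (l : ℕ → ℝ) (w : ℕ → E3) (i m : ℕ) :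
    vt p l w (i + m) - vt p l w i = ∑ k ∈ range m, l (i + k) • w (i + k) := by
  unfold vt
  rw [sum_range_add]
  abel

/-- The chord between two points of the links `i` and `i + m`. -/
theorem chord_vt (p : E3) (l : ℕ → ℝ) (w : ℕ → E3) (i m : ℕ) (hm : 1 ≤ m) (s s' : ℝ) :
    (vt p l w (i + m) + s' • (l (i + m) • w (i + m))) - (vt p l w i + s • (l i • w i)) =
      ∑ k ∈ range (m + 1), Thin.cf l i m s s' k • w (i + k) := by
  have h1 := vt_add p l w i m
  rw [Thin.sum_cf l i m hm s s' fun k => w (i + k), ← h1, Nat.add_zero]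
  module

theorem continuous_vt {X : Type} [TopologicalSpace X] {p : X → E3} (l : ℕ → ℝ)
    {w : X → ℕ → E3} (hp : Continuous p) (k : ℕ)
    (hw : ∀ m, m < k → Continuous fun x => w x m) :
    Continuous fun x => vt (p x) l (w x) k := by
  unfold vt
  refine hp.add (continuous_finsetSum _ fun m hm => ?_)
  exact (hw m (mem_range.1 hm)).const_smul (l m)

theorem dist_vt {p : E3} {l : ℕ → ℝ} {w : ℕ → E3} {k : ℕ} (hl : 0 < l k) (hw : ‖w k‖ = 1) :
    dist (vt p l w k) (vt p l w (k + 1)) = l k := by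
  rw [vt_succ, dist_self_add_right, norm_smul, hw, mul_one, Real.norm_eq_abs, abs_of_pos hl]

theorem angle_vt {p : E3} {l : ℕ → ℝ} {w : ℕ → E3} {θ : ℝ} {k : ℕ} (hl : 0 < l k)
    (hl' : 0 < l (k + 1)) (hw : ‖w k‖ = 1) (hw' : ‖w (k + 1)‖ = 1) (h0 : 0 ≤ θ) (h1 : θ ≤ π)
    (h : cos θ = -inner ℝ (w k) (w (k + 1))) :
    EuclideanGeometry.angle (vt p l w k) (vt p l w (k + 1)) (vt p l w (k + 2)) = θ := by
  unfold EuclideanGeometry.angle
  have e1 : vt p l w k -ᵥ vt p l w (k + 1) = l k • (-(w k)) := by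
    rw [vsub_eq_sub, vt_succ]
    module
  have e2 : vt p l w (k + 2) -ᵥ vt p l w (k + 1) = l (k + 1) • w (k + 1) := by
    rw [vsub_eq_sub, vt_succ p l w (k + 1)]
    module
  rw [e1, e2, InnerProductGeometry.angle_smul_left_of_pos _ _ hl,
    InnerProductGeometry.angle_smul_right_of_pos _ _ hl']
  unfold InnerProductGeometry.angle
  rw [norm_neg, hw, hw', inner_neg_left, ← h, mul_one, div_one, arccos_cos h0 h1]

end Pool.Agent.HCH
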