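import Pool.Agent.HCH.Hier

/-!
# Hierarchical chains with generic joint angles are dominated
-/

set_option autoImplicit false

namespace Pool.Agent.HCH

open Real Finset Pool.Agent.Lib_helper54.Flat

section

variable {n : ℕ} {P : Fin (n + 1) → E3} {l θ : ℕ → ℝ}

theorem sum_split (f : ℕ → ℝ) {i j : ℕ} (h : i < j) :
    ∑ k ∈ Icc i j, f k = f i + ∑ k ∈ Ico (i + 1) j, f k + f j := by
  have h1 : Icc i j = Ico i (j + 1) := by
    ext k; simp only [mem_Icc, mem_Ico]; omega
  rw [h1, sum_Ico_succ_top h.le, sum_eq_sum_Ico_succ_bot h]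

theorem sum_left (f : ℕ → ℝ) {i j : ℕ} (h : i < j) :
    ∑ k ∈ Icc i (j - 1), f k = f i + ∑ k ∈ Ico (i + 1) j, f k := by
  have h1 : Icc i (j - 1) = Ico i j := by
    ext k; simp only [mem_Icc, mem_Ico]; omega
  rw [h1, sum_eq_sum_Ico_succ_bot h]

theorem sum_right (f : ℕ → ℝ) {i j : ℕ} (h : i < j) :
    ∑ k ∈ Icc (i + 1) j, f k = ∑ k ∈ Ico (i + 1) j, f k + f j := by
  have h1 : Icc (i + 1) j = Ico (i + 1) (j + 1) := by
    ext k; simp only [mem_Icc, mem_Ico]; omega
  rw [h1, sum_Ico_succ_top (by omega : i + 1 ≤ j)]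

theorem sum_mid (f : ℕ → ℝ) {i K j : ℕ} (h1 : i < K) (h2 : K < j) :
    ∑ k ∈ Ico (i + 1) j, (if k = K then 0 else f k) = ∑ k ∈ Ico (i + 1) j, f k - f K := by
  have hK : K ∈ Ico (i + 1) j := mem_Ico.2 ⟨by omega, h2⟩
  rw [← add_sum_erase _ _ hK, ← add_sum_erase _ f hK, if_pos rfl, zero_add, add_sub_cancel_left]
  exact sum_congr rfl fun k hk => if_neg (mem_erase.1 hk).1

theorem sum_shift {M : Type} [AddCommGroup M] (G : ℕ → M) (i m : ℕ) :
    ∑ k ∈ range (m + 1), G (i + k) = ∑ k ∈ Ico i (i + m + 1), G k := by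
  rw [sum_Ico_eq_sum_range]
  congr 2
  omega

theorem sum_three {M : Type} [AddCommGroup M] (G : ℕ → M) {i m K : ℕ} (h1 : i < K)
    (h2 : K < i + m) (h0 : ∀ k, i < k → k < i + m → k ≠ K → G k = 0) :
    ∑ k ∈ range (m + 1), G (i + k) = G i + G K + G (i + m) := by
  rw [sum_shift, sum_Ico_succ_top (by omega : i ≤ i + m),
    sum_eq_sum_Ico_succ_bot (by omega : i < i + m)]
  congr 2
  refine sum_eq_single K (fun k hk hne => ?_) fun hK => ?_
  · rw [mem_Ico] at hk
    exact h0 k (by omega) (by omega) hne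
  · exact absurd (mem_Ico.2 ⟨by omega, h2⟩) hK

theorem cl_left (r : ℕ → ℕ) {i K j : ℕ} (h1 : i < K) (h2 : K < j) :
    Cl r i K j i ↔ r K < r i := by
  constructor
  · rintro (h3 | ⟨-, h3⟩ | ⟨h3, -⟩)
    · omega
    · exact h3
    · omega
  · exact fun h => Or.inr (Or.inl ⟨rfl, h⟩)

theorem cl_right (r : ℕ → ℕ) {i K j : ℕ} (h1 : i < K) (h2 : K < j) :
    Cl r i K j j ↔ r K < r j := by
  constructor
  · rintro (h3 | ⟨h3, -⟩ | ⟨-, h3⟩)
    · omega
    · omega
    · exact h3
  · exact fun h => Or.inr (Or.inr ⟨rfl, h⟩)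

theorem cl_mid (r : ℕ → ℕ) {i K j k : ℕ} (h1 : i < k) (h2 : k < j) :
    Cl r i K j k ↔ k = K := by
  constructor
  · rintro (h3 | ⟨h3, -⟩ | ⟨h3, -⟩)
    · exact h3
    · omega
    · omega
  · exact fun h => Or.inl h

open Classical in
theorem rest_split (r : ℕ → ℕ) {i K m : ℕ} (h1 : i < K) (h2 : K < i + m) :
    (∑ k ∈ range (m + 1), if Cl r i K (i + m) (i + k) then 0 else l (i + k)) =
      (if r K < r i then 0 else l i) + (∑ k ∈ Ico (i + 1) (i + m), l k - l K) +
        (if r K < r (i + m) then 0 else l (i + m)) := by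
  rw [sum_shift (fun k => if Cl r i K (i + m) k then 0 else l k) i m,
    sum_Ico_succ_top (by omega : i ≤ i + m), sum_eq_sum_Ico_succ_bot (by omega : i < i + m),
    ← sum_mid l h1 h2]
  congr 1
  · congr 1
    · simp only [cl_left r h1 h2]
    · refine sum_congr rfl fun k hk => ?_
      rw [mem_Ico] at hk
      simp only [cl_mid r (K := K) (by omega : i < k) hk.2]
  · simp only [cl_right r h1 h2]

open Classical in
theorem dom_split (r : ℕ → ℕ) {i K m : ℕ} (h1 : i < K) (h2 : K < i + m) (t t' : ℝ)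
    (w : ℕ → E3) :
    dom (range (m + 1)) (fun k => Cl r i K (i + m) (i + k)) (Thin.cf l i m t t')
        (fun k => w (i + k)) =
      (if r K < r i then (1 - t) * l i else 0) • w i + l K • w K +
        (if r K < r (i + m) then t' * l (i + m) else 0) • w (i + m) := by
  unfold dom
  have e0 : ∀ k ∈ range (m + 1),
      (if Cl r i K (i + m) (i + k) then Thin.cf l i m t t' k else 0) • w (i + k) =
        (fun k' => (if Cl r i K (i + m) k' then Thin.cf l i m t t' (k' - i) else 0) • w k')
          (i + k) := by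
    intro k _
    simp only [Nat.add_sub_cancel_left]
  refine (sum_congr rfl e0).trans ((sum_three (fun k' =>
    (if Cl r i K (i + m) k' then Thin.cf l i m t t' (k' - i) else 0) • w k') h1 h2 ?_).trans ?_)
  · intro k h3 h4 h5
    simp only [cl_mid r (K := K) h3 h4, if_neg h5, zero_smul]
  · congr 1
    · congr 1
      · simp only [cl_left r h1 h2, Nat.sub_self]
        unfold Thin.cf
        rw [if_pos rfl]
      · simp only [cl_mid r (K := K) h1 h2, if_true]
        unfold Thin.cf
        rw [if_neg (by omega), if_neg (by omega)]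
        congr 2
        omega
    · simp only [cl_right r h1 h2, Nat.add_sub_cancel_left]
      have e1 : Thin.cf l i m t t' m = t' * l (i + m) := by
        unfold Thin.cf
        rw [if_neg (by omega), if_pos rfl]
      rw [e1]

/-- Flat configurations of hierarchical chains with generic joint angles are dominated. -/
theorem dominated_of_hier (hD : Data P l θ) (hP : IsSimple P)
    {s : ℝ} (hs0 : 0 < s) (hs1 : s ≤ 1) (hH : Hier n l s) (hG : Gen n l θ s) :
    Dominated P l (rk n l) := by
  intro a b c hON α hα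
  have hcos : ∀ k, k + 2 ≤ n → cos (θ k) = -cos (α k - α (k + 1)) := fun k hk => by
    rw [cos_angle_links hD hk (hα k (by omega)) (hα (k + 1) (by omega)) (norm_pl hON _)
      (norm_pl hON _), inner_pl hON]
  have hvis : ∀ x y, y < n → Vis (rk n l) x y → s ≤ |sin (α x - α y)| := fun x y hy hv =>
    gen_sin hG hcos hv.1 hy (vis_len hs1 hD.pos hH hy hv)
  constructor
  · intro x y hy hv
    exact abs_pos.1 (hs0.trans_le (hvis x y hy hv))
  intro i m K h1 h2 hj hmax t t' t0 t1 t0' t1'
  obtain ⟨j, hjm⟩ : ∃ j, j = i + m := ⟨_, rfl⟩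
  rw [rest_split (l := l) (rk n l) h1 h2, dom_split (rk n l) h1 h2 t t' fun k => pl a b (α k)]
  rw [← hjm] at h2 hj hmax ⊢
  have hij : i < j := h1.trans h2
  obtain ⟨Z, hZ⟩ : ∃ Z, Z = ∑ k ∈ Ico (i + 1) j, l k • pl a b (α k) := ⟨_, rfl⟩
  have hv := vx_vt hα
  have hZv : vx P j - vx P (i + 1) = Z := by
    obtain ⟨d, hd⟩ : ∃ d, j = i + 1 + d := ⟨j - (i + 1), by omega⟩
    rw [hd, hv (i + 1 + d) (by omega), hv (i + 1) (by omega), vt_add, hZ, hd,
      sum_Ico_eq_sum_range, Nat.add_sub_cancel_left]
  have hli := hD.pos i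
  have hlj := hD.pos j
  have hlK := hD.pos K
  have hKS : K ∈ Ico (i + 1) j := mem_Ico.2 ⟨by omega, h2⟩
  obtain ⟨R0, hR0⟩ : ∃ R0, R0 = ∑ k ∈ Ico (i + 1) j, l k - l K := ⟨_, rfl⟩
  have hYn : ‖Z - l K • pl a b (α K)‖ ≤ R0 := by
    rw [hR0, hZ, ← add_sum_erase _ _ hKS, ← add_sum_erase _ l hKS, add_sub_cancel_left,
      add_sub_cancel_left]
    refine (norm_sum_le _ _).trans (sum_le_sum fun k _ => ?_)
    rw [norm_smul, norm_pl hON, mul_one, Real.norm_eq_abs, abs_of_pos (hD.pos k)]
  have hs3 : s * l K ≤ l K := mul_le_of_le_one_left hlK.le hs1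
  have hmaxl : ∀ k, i < k → k < j → l k ≤ l K := fun k h3 h4 =>
    le_of_rk (by omega) (hmax k h3 h4)
  have hinj : ∀ k, i < k → k < j → rk n l k = rk n l K → k = K := fun k h3 h4 h5 =>
    rk_inj (by omega) (by omega) h5
  rw [← hR0]
  have hvisC : ∀ {x y : ℕ}, Cl (rk n l) i K j x → Cl (rk n l) i K j y → x < y → y < n →
      s ≤ |sin (α x - α y)| := fun {x y} h3 h4 h5 h6 =>
    hvis x y h6 (cl_vis h1 h2 hmax hinj h3 h4 h5)
  have hClK : Cl (rk n l) i K j K := Or.inl rfl
  by_cases ri : rk n l K < rk n l i <;> by_cases rj : rk n l K < rk n l j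
  · -- both ends dominate
    rw [if_pos ri, if_pos rj, if_pos ri, if_pos rj, zero_add, add_zero]
    have hCi : Cl (rk n l) i K j i := Or.inr (Or.inl ⟨rfl, ri⟩)
    have hCj : Cl (rk n l) i K j j := Or.inr (Or.inr ⟨rfl, rj⟩)
    have hKi := le_of_rk (n := n) (l := l) (by omega : i < n) ri.le
    have hKj := le_of_rk (n := n) (l := l) hj rj.le
    have g1 : l K + R0 < s * l i := by
      have h3 := hH i i (j - 1) le_rfl (by omega) (by omega) fun k h4 h5 => by
        rcases Nat.eq_or_lt_of_le h4 with h6 | h6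
        · rw [h6]
        · exact (hmaxl k h6 (by omega)).trans hKi
      rw [sum_left l hij] at h3
      rw [hR0]
      linarith
    have g2 : l K + R0 < s * l j := by
      have h3 := hH (i + 1) j j (by omega) le_rfl hj fun k h4 h5 => by
        rcases Nat.eq_or_lt_of_le h5 with h6 | h6
        · rw [h6]
        · exact (hmaxl k (by omega) h6).trans hKj
      rw [sum_right l hij] at h3
      rw [hR0]
      linarith
    have g3 : R0 < s * l K := by
      have h3 := hH (i + 1) K (j - 1) (by omega) (by omega) (by omega) fun k h4 h5 =>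
        hmaxl k (by omega) (by omega)
      have h4 : Icc (i + 1) (j - 1) = Ico (i + 1) j := by
        ext k; simp only [mem_Icc, mem_Ico]; omega
      rw [h4, ← hR0] at h3
      exact h3
    refine three_terms (y := α K) (L := l K) (s := s) (l1 := l i) (l2 := l j) (Z := Z)
      (zx := ∑ k ∈ Ico (i + 1) j, l k * cos (α k))
      (zy := ∑ k ∈ Ico (i + 1) j, l k * sin (α k)) hON ?_ hYn hlK hs0
      (hvisC hCi hCj hij hj) (by rw [← abs_neg, ← sin_neg, neg_sub]; exact hvisC hCi hClK h1 (by omega))
      (hvisC hClK hCj h2 hj) g3 g1.le g2.le ?_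
      (mul_nonneg (by linarith only [t1]) hli.le) (mul_nonneg t0' hlj.le)
    · rw [hZ, sum_smul, sum_smul, ← sum_add_distrib]
      refine sum_congr rfl fun k _ => ?_
      unfold pl
      module
    · intro c1 c2 c10 c11 c20 c21 h0
      have h3 := hP.2.1 ⟨i, by omega⟩ ⟨j, hj⟩ (by show i + 1 < j; omega)
      rw [Set.disjoint_left] at h3
      have e0 : P (Fin.castSucc (⟨i, by omega⟩ : Fin n)) = vx P i := by
        rw [vx_of_le P (by omega)]; rfl
      have e1 : P (Fin.succ (⟨i, by omega⟩ : Fin n)) = vx P (i + 1) := by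
        rw [vx_of_le P (by omega)]; rfl
      have e2 : P (Fin.castSucc (⟨j, hj⟩ : Fin n)) = vx P j := by
        rw [vx_of_le P (by omega)]; rfl
      have e3 : P (Fin.succ (⟨j, hj⟩ : Fin n)) = vx P (j + 1) := by
        rw [vx_of_le P (by omega)]; rfl
      rw [e0, e1, e2, e3] at h3
      have m1 : vx P i + (1 - c1 / l i) • (vx P (i + 1) - vx P i) ∈
          segment ℝ (vx P i) (vx P (i + 1)) := by
        refine Thin.mem_segment_iff'.2 ⟨1 - c1 / l i, ?_, ?_, rfl⟩
        · rw [sub_nonneg, div_le_one hli]; exact c11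
        · have : 0 ≤ c1 / l i := by positivity
          linarith
      have m2 : vx P j + (c2 / l j) • (vx P (j + 1) - vx P j) ∈
          segment ℝ (vx P j) (vx P (j + 1)) := by
        refine Thin.mem_segment_iff'.2 ⟨c2 / l j, by positivity, ?_, rfl⟩
        rw [div_le_one hlj]; exact c21
      refine h3 m1 ?_
      have e4 : vx P i + (1 - c1 / l i) • (vx P (i + 1) - vx P i) =
          vx P j + (c2 / l j) • (vx P (j + 1) - vx P j) := by
        have e5 : vx P j = vx P (i + 1) + Z := by rw [← hZv]; abel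
        have e6 : vx P (i + 1) = vx P i + l i • pl a b (α i) := by
          rw [← hα i (by omega)]; abel
        have e7 : (c2 / l j) • (vx P (j + 1) - vx P j) = c2 • pl a b (α j) := by
          rw [hα j hj, smul_smul, div_mul_cancel₀ _ hlj.ne']
        have e8 : (1 - c1 / l i) • (vx P (i + 1) - vx P i) =
            l i • pl a b (α i) - c1 • pl a b (α i) := by
          rw [hα i (by omega), smul_smul, sub_mul, one_mul, div_mul_cancel₀ _ hli.ne', sub_smul]
        rw [e7, e8, e5, e6]
        have e9 : Z = -(c1 • pl a b (α i)) - c2 • pl a b (α j) := by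
          have e10 : c1 • pl a b (α i) + Z = -(c2 • pl a b (α j)) :=
            eq_neg_of_add_eq_zero_left h0
          have e11 : Z = -(c2 • pl a b (α j)) - c1 • pl a b (α i) := by
            rw [← e10]; abel
          rw [e11]
          abel
        rw [e9]
        abel
      rw [e4]
      exact m2
  · -- the first link dominates
    rw [if_pos ri, if_neg rj, if_pos ri, if_neg rj, zero_add, zero_smul, add_zero]
    have hCi : Cl (rk n l) i K j i := Or.inr (Or.inl ⟨rfl, ri⟩)
    have hjK := le_of_rk (n := n) (l := l) (by omega : K < n) (not_lt.1 rj)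
    have g : R0 + l j < s * l K := by
      have h3 := hH (i + 1) K j (by omega) h2.le hj fun k h4 h5 => by
        rcases Nat.eq_or_lt_of_le h5 with h6 | h6
        · rw [h6]; exact hjK
        · exact hmaxl k (by omega) h6
      rw [sum_right l hij] at h3
      rw [hR0]
      linarith
    have h3 := two_terms (x := α i) (y := α K) (L := l K) (s := s)
      (c1 := (1 - t) * l i) hON hlK
      (by rw [← abs_neg, ← sin_neg, neg_sub]; exact hvisC hCi hClK h1 (by omega))
    linarith
  · -- the last link dominates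
    rw [if_neg ri, if_pos rj, if_neg ri, if_pos rj, add_zero, zero_smul, zero_add, add_comm
      (l K • pl a b (α K))]
    have hCj : Cl (rk n l) i K j j := Or.inr (Or.inr ⟨rfl, rj⟩)
    have hiK := le_of_rk (n := n) (l := l) (by omega : K < n) (not_lt.1 ri)
    have g : l i + R0 < s * l K := by
      have h3 := hH i K (j - 1) h1.le (by omega) (by omega) fun k h4 h5 => by
        rcases Nat.eq_or_lt_of_le h4 with h6 | h6
        · rw [← h6]; exact hiK
        · exact hmaxl k h6 (by omega)
      rw [sum_left l hij] at h3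
      rw [hR0]
      linarith
    have h3 := two_terms (x := α j) (y := α K) (L := l K) (s := s)
      (c1 := t' * l j) hON hlK (hvisC hClK hCj h2 hj)
    linarith
  · -- no end dominates
    rw [if_neg ri, if_neg rj, if_neg ri, if_neg rj, zero_smul, zero_smul, zero_add, add_zero,
      one_term hON hlK]
    have hiK := le_of_rk (n := n) (l := l) (by omega : K < n) (not_lt.1 ri)
    have hjK := le_of_rk (n := n) (l := l) (by omega : K < n) (not_lt.1 rj)
    have g : l i + R0 + l j < s * l K := by
      have h3 := hH i K j h1.le h2.le hj fun k h4 h5 => by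
        rcases Nat.eq_or_lt_of_le h4 with h6 | h6
        · rw [← h6]; exact hiK
        · rcases Nat.eq_or_lt_of_le h5 with h7 | h7
          · rw [h7]; exact hjK
          · exact hmaxl k h6 h7
      rw [sum_split l hij] at h3
      rw [hR0]
      linarith
    linarith

end

end Pool.Agent.HCH
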