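import Pool.Agent.HCH.Cross
import Pool.Agent.HCH.Crit

/-!
# Hierarchical chains with generic joint angles
-/

set_option autoImplicit false

namespace Pool.Agent.HCH

open Real Finset Pool.Agent.Lib_helper54.Flat

section

variable {n : ℕ} {P : Fin (n + 1) → E3} {l θ : ℕ → ℝ}

/-- The turns of a flat configuration. -/
theorem exists_turns {α : ℕ → ℝ} (h : ∀ k, k + 2 ≤ n → cos (θ k) = -cos (α k - α (k + 1))) :
    ∃ σ : ℕ → ℝ, (∀ k, σ k = 1 ∨ σ k = -1) ∧ ∀ k, k + 2 ≤ n →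
      ∃ m : ℤ, α (k + 1) = α k + σ k * (π - θ k) + m * (2 * π) := by
  have h2 : ∀ k, ∃ s : ℝ, (s = 1 ∨ s = -1) ∧ (k + 2 ≤ n →
      ∃ m : ℤ, α (k + 1) = α k + s * (π - θ k) + m * (2 * π)) := by
    intro k
    by_cases hk : k + 2 ≤ n
    · have h5 : cos (π - θ k) = cos (α (k + 1) - α k) := by
        rw [cos_pi_sub, h k hk, neg_neg, ← cos_neg, neg_sub]
      rw [Real.cos_eq_cos_iff] at h5
      obtain ⟨m, hm | hm⟩ := h5
      · exact ⟨1, Or.inl rfl, fun _ => ⟨m, by linarith⟩⟩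
      · exact ⟨-1, Or.inr rfl, fun _ => ⟨m, by linarith⟩⟩
    · exact ⟨1, Or.inl rfl, fun h => absurd h hk⟩
  choose σ h3 h4 using h2
  exact ⟨σ, h3, h4⟩

/-- The sine of the angle between two links in terms of the turns. -/
theorem sin_turns {α σ : ℕ → ℝ} (hσ : ∀ k, σ k = 1 ∨ σ k = -1)
    (h : ∀ k, k + 2 ≤ n → ∃ m : ℤ, α (k + 1) = α k + σ k * (π - θ k) + m * (2 * π)) (a : ℕ) :
    ∀ d, a + d < n → ∃ m : ℤ, α (a + d) = α a - ∑ k ∈ Ico a (a + d), σ k * θ k + m * π := by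
  intro d
  induction d with
  | zero => intro _; exact ⟨0, by simp⟩
  | succ d ih =>
    intro hd
    obtain ⟨m, hm⟩ := ih (by omega)
    obtain ⟨m', hm'⟩ := h (a + d) (by omega)
    rw [← Nat.add_assoc, sum_Ico_succ_top (by omega : a ≤ a + d), hm', hm]
    rcases hσ (a + d) with hs | hs
    · refine ⟨m + 1 + 2 * m', ?_⟩
      rw [hs]
      push_cast
      ring
    · refine ⟨m - 1 + 2 * m', ?_⟩
      rw [hs]
      push_cast
      ring

theorem abs_sin_sub_int (x : ℝ) (m : ℤ) : |sin (x + m * π)| = |sin x| := by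
  rw [sin_add_int_mul_pi, abs_mul, abs_zpow, abs_neg, abs_one, one_zpow, one_mul]

/-- Genericity for the angles of the links. -/
theorem gen_sin {s : ℝ} (hG : Gen n l θ s) {α : ℕ → ℝ}
    (h : ∀ k, k + 2 ≤ n → cos (θ k) = -cos (α k - α (k + 1))) {i j : ℕ} (hij : i < j)
    (hj : j < n) (hv : ∀ k, i < k → k < j → l k < l i ∧ l k < l j) :
    s ≤ |sin (α i - α j)| := by
  obtain ⟨σ, h1, h2⟩ := exists_turns h
  obtain ⟨d, rfl⟩ : ∃ d, j = i + d := ⟨j - i, by omega⟩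
  obtain ⟨m, hm⟩ := sin_turns h1 h2 i d hj
  have h3 : α i - α (i + d) = ∑ k ∈ Ico i (i + d), σ k * θ k + (-m : ℤ) * π := by
    rw [hm]
    push_cast
    ring
  rw [h3, abs_sin_sub_int]
  exact hG σ h1 i (i + d) hij hj hv

/-- The ranking of the links by their lengths. -/
noncomputable def rk (n : ℕ) (l : ℕ → ℝ) (k : ℕ) : ℕ := by
  classical
  exact ((range n).filter fun m => l m < l k ∨ (l m = l k ∧ m < k)).card

theorem rk_lt {i j : ℕ} (hi : i < n) (h : l i < l j ∨ (l i = l j ∧ i < j)) :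
    rk n l i < rk n l j := by
  classical
  unfold rk
  apply card_lt_card
  rw [ssubset_iff_of_subset]
  · refine ⟨i, mem_filter.2 ⟨mem_range.2 hi, h⟩, ?_⟩
    rw [mem_filter]
    rintro ⟨-, h1 | ⟨-, h1⟩⟩
    · exact lt_irrefl _ h1
    · exact lt_irrefl _ h1
  · intro m hm
    rw [mem_filter] at hm ⊢
    refine ⟨hm.1, ?_⟩
    rcases hm.2 with h1 | ⟨h1, h2⟩ <;> rcases h with h3 | ⟨h3, h4⟩
    · exact Or.inl (h1.trans h3)
    · exact Or.inl (h1.trans_eq h3)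
    · exact Or.inl (h1.trans_lt h3)
    · exact Or.inr ⟨h1.trans h3, h2.trans h4⟩

theorem rk_inj {i j : ℕ} (hi : i < n) (hj : j < n) (h : rk n l i = rk n l j) : i = j := by
  by_contra hne
  rcases lt_trichotomy (l i) (l j) with h1 | h1 | h1
  · exact absurd h (rk_lt hi (Or.inl h1)).ne
  · rcases Nat.lt_or_gt_of_ne hne with h2 | h2
    · exact absurd h (rk_lt hi (Or.inr ⟨h1, h2⟩)).ne
    · exact absurd h (rk_lt hj (Or.inr ⟨h1.symm, h2⟩)).ne'
  · exact absurd h (rk_lt hj (Or.inl h1)).ne'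

theorem le_of_rk {i j : ℕ} (hj : j < n) (h : rk n l i ≤ rk n l j) : l i ≤ l j := by
  by_contra hlt
  push Not at hlt
  exact absurd (rk_lt hj (Or.inl hlt)) (not_lt.2 h)

theorem hier_pos {s : ℝ} (hs1 : s ≤ 1) (hl : ∀ k, 0 < l k) (hH : Hier n l s)
    {a K b : ℕ} (h1 : a ≤ K) (h2 : K ≤ b) (h3 : b < n) (h4 : ∀ k, a ≤ k → k ≤ b → l k ≤ l K)
    {k : ℕ} (h5 : a ≤ k) (h6 : k ≤ b) (h7 : k ≠ K) : l k < l K := by
  have h8 := hH a K b h1 h2 h3 h4
  have h9 : l k ≤ ∑ m ∈ Icc a b, l m - l K := by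
    have hK : K ∈ Icc a b := mem_Icc.2 ⟨h1, h2⟩
    rw [← add_sum_erase _ _ hK, add_sub_cancel_left]
    exact single_le_sum (f := l) (fun m _ => (hl m).le)
      (mem_erase.2 ⟨h7, mem_Icc.2 ⟨h5, h6⟩⟩)
  have h10 : s * l K ≤ l K := mul_le_of_le_one_left (hl K).le hs1
  linarith

/-- visibility by rank and by length -/
theorem vis_len {s : ℝ} (hs1 : s ≤ 1) (hl : ∀ k, 0 < l k) (hH : Hier n l s)
    {a b : ℕ} (hb : b < n) (hv : Vis (rk n l) a b) :
    ∀ k, a < k → k < b → l k < l a ∧ l k < l b := by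
  obtain ⟨hab, hv⟩ := hv
  have hle : ∀ k, a < k → k < b → l k ≤ l a ∧ l k ≤ l b := fun k h1 h2 =>
    ⟨le_of_rk (by omega) (hv k h1 h2).1.le, le_of_rk hb (hv k h1 h2).2.le⟩
  intro k h1 h2
  constructor
  · refine hier_pos hs1 hl hH (le_refl a) h1.le (by omega) (fun m h3 h4 => ?_) h1.le le_rfl
      (by omega)
    rcases Nat.eq_or_lt_of_le h3 with h5 | h5
    · rw [h5]
    · exact (hle m h5 (by omega)).1
  · refine hier_pos hs1 hl hH h2.le (le_refl b) hb (fun m h3 h4 => ?_) le_rfl h2.le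
      (by omega)
    rcases Nat.eq_or_lt_of_le h4 with h5 | h5
    · rw [h5]
    · exact (hle m (by omega) h5).2

end

end Pool.Agent.HCH
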