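import Pool.Agent.HCH.Est
import Pool.Agent.Lib_helper54.Flat.Repr

/-!
# The criterion: flat configurations with large gaps for a ranking of the links are connected
-/

set_option autoImplicit false

namespace Pool.Agent.HCH

open Real Finset Pool.Agent.Lib_helper54.Flat

section

variable {n : ℕ} {P : Fin (n + 1) → E3} {l θ : ℕ → ℝ}

/-- The planar unit vector with the angle `x`. -/
noncomputable def pl (e f : E3) (x : ℝ) : E3 := cos x • e + sin x • f

theorem inner_pl {a b c : E3} (h : ON a b c) (x y : ℝ) :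
    inner ℝ (pl a b x) (pl a b y) = cos (x - y) := by
  have h2 := inner_comb h (cos x) (sin x) 0 (cos y) (sin y) 0
  rw [zero_smul, add_zero, add_zero] at h2
  unfold pl
  rw [h2, cos_sub]
  ring

theorem norm_pl {a b c : E3} (h : ON a b c) (x : ℝ) : ‖pl a b x‖ = 1 := by
  have h2 := inner_pl h x x
  rw [sub_self, cos_zero, real_inner_self_eq_norm_sq] at h2
  exact (pow_eq_one_iff_of_nonneg (norm_nonneg _) two_ne_zero).1 h2

theorem norm_of_inner {v : E3} (h : inner ℝ v v = (1 : ℝ)) : ‖v‖ = 1 := by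
  rw [real_inner_self_eq_norm_sq] at h
  exact (pow_eq_one_iff_of_nonneg (norm_nonneg _) two_ne_zero).1 h

/-- The angles of the links of a flat configuration. -/
theorem exists_angles (hD : Data P l θ) {a b c : E3} (hON : ON a b c)
    (hc : ∀ k, k < n → inner ℝ c (vx P (k + 1) - vx P k) = (0 : ℝ)) :
    ∃ α : ℕ → ℝ, ∀ k, k < n → vx P (k + 1) - vx P k = l k • pl a b (α k) := by
  have h1 : ∀ k, ∃ φ : ℝ, k < n →
      vx P (k + 1) - vx P k = l k • pl a b φ := by
    intro k
    by_cases hk : k < n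
    · have hl := hD.pos k
      have hlen := hD.len' hk
      have hrep := hON.rep (vx P (k + 1) - vx P k)
      rw [hc k hk, zero_smul, add_zero] at hrep
      set x : ℝ := inner ℝ a (vx P (k + 1) - vx P k) with hx
      set y : ℝ := inner ℝ b (vx P (k + 1) - vx P k) with hy
      have hn : x * x + y * y = l k * l k := by
        have h2 := inner_comb hON x y 0 x y 0
        rw [zero_smul, add_zero, ← hrep, real_inner_self_eq_norm_sq, ← dist_eq_norm,
          dist_comm, hlen] at h2
        linarith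
      have h3 : x / l k * (x / l k) + y / l k * (y / l k) = 1 := by
        field_simp
        linarith
      obtain ⟨φ, h4, h5⟩ := exists_angle h3
      refine ⟨φ, fun _ => ?_⟩
      rw [pl, h4, h5, smul_add, smul_smul, smul_smul, mul_div_cancel₀ _ hl.ne',
        mul_div_cancel₀ _ hl.ne']
      exact hrep
    · exact ⟨0, fun h => absurd h hk⟩
  choose α hα using h1
  exact ⟨α, hα⟩

theorem vx_vt {w : ℕ → E3} (h : ∀ k, k < n → vx P (k + 1) - vx P k = l k • w k) :
    ∀ k, k ≤ n → vx P k = vt (vx P 0) l w k := by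
  intro k
  induction k with
  | zero => intro _; simp [vt]
  | succ k ih =>
    intro hk
    rw [vt_succ, ← ih (by omega), ← h k (by omega)]
    abel

/-- The configuration. -/
noncomputable def conf (n : ℕ) (p : E3) (l : ℕ → ℝ) (w : ℕ → E3) : Fin (n + 1) → E3 :=
  fun i => vt p l w i.val

/-- The clique of a pair of links. -/
def Cl (r : ℕ → ℕ) (i K j k : ℕ) : Prop :=
  k = K ∨ (k = i ∧ r K < r i) ∨ (k = j ∧ r K < r j)

theorem cl_vis {r : ℕ → ℕ} {i K j : ℕ} (h1 : i < K) (h2 : K < j)
    (hmax : ∀ k, i < k → k < j → r k ≤ r K)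
    (hinj : ∀ k, i < k → k < j → r k = r K → k = K) {a b : ℕ} (ha : Cl r i K j a)
    (hb : Cl r i K j b) (hab : a < b) : Vis r a b := by
  refine ⟨hab, fun k hk1 hk2 => ?_⟩
  have hai : i ≤ a := by
    rcases ha with h | h | h <;> omega
  have hbj : b ≤ j := by
    rcases hb with h | h | h <;> omega
  have h3 := hmax k (by omega) (by omega)
  have h4 : k ≠ K → r k < r K := fun hne =>
    lt_of_le_of_ne h3 fun h => hne (hinj k (by omega) (by omega) h)
  rcases ha with ha | ⟨ha, ha'⟩ | ⟨ha, ha'⟩ <;> rcases hb with hb | ⟨hb, hb'⟩ | ⟨hb, hb'⟩ <;>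
    subst ha hb
  all_goals omega

open Classical in
/-- The dominant part of every chord is longer than the rest. -/
def DomGap (n : ℕ) (l : ℕ → ℝ) (r : ℕ → ℕ) (w : ℕ → E3) : Prop :=
  ∀ i m K, i < K → K < i + m → i + m < n → (∀ k, i < k → k < i + m → r k ≤ r K) →
    ∀ s s' : ℝ, 0 ≤ s → s ≤ 1 → 0 ≤ s' → s' ≤ 1 →
      (∑ k ∈ range (m + 1), if Cl r i K (i + m) (i + k) then 0 else l (i + k)) <
        ‖dom (range (m + 1)) (fun k => Cl r i K (i + m) (i + k)) (Thin.cf l i m s s')
          (fun k => w (i + k))‖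

open Classical in
/-- The configurations of the motion are in the free space. -/
theorem conf_mem (hD : Data P l θ) (hpos : ∀ k, k + 2 ≤ n → 0 < θ k) {r : ℕ → ℕ}
    (hr : ∀ i j, i < n → j < n → r i = r j → i = j) {wP wQ w : ℕ → E3}
    (nP : ∀ k, ‖wP k‖ = 1) (nQ : ∀ k, ‖wQ k‖ = 1) (nw : ∀ k, k < n → ‖w k‖ = 1)
    (aP : ∀ k, k + 2 ≤ n → cos (θ k) = -inner ℝ (wP k) (wP (k + 1)))
    (aQ : ∀ k, k + 2 ≤ n → cos (θ k) = -inner ℝ (wQ k) (wQ (k + 1)))
    (gP : DomGap n l r wP) (gQ : DomGap n l r wQ)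
    {t : ℝ} (t0 : 0 ≤ t) (t1 : t ≤ 1)
    (hw : ∀ a b, b < n → Vis r a b →
      inner ℝ (w a) (w b) = (1 - t) * inner ℝ (wP a) (wP b) + t * inner ℝ (wQ a) (wQ b))
    (p : E3) : conf n p l w ∈ freeSpace P := by
  have hvis : ∀ k, Vis r k (k + 1) := fun k => ⟨by omega, fun m h1 h2 => by omega⟩
  have hang : ∀ k, k + 2 ≤ n → EuclideanGeometry.angle (vt p l w k) (vt p l w (k + 1))
      (vt p l w (k + 2)) = θ k := by
    intro k hk
    refine angle_vt (hD.pos _) (hD.pos _) (nw k (by omega)) (nw (k + 1) (by omega))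
      (hD.ang_nonneg k) (hD.ang_le k) ?_
    rw [hw k (k + 1) (by omega) (hvis k)]
    have h1 := aP k hk
    have h2 := aQ k hk
    have h3 : (inner ℝ (wP k) (wP (k + 1)) : ℝ) = -cos (θ k) := by linarith
    have h4 : (inner ℝ (wQ k) (wQ (k + 1)) : ℝ) = -cos (θ k) := by linarith
    rw [h3, h4]
    ring
  refine ⟨⟨?_, ?_, ?_⟩, ?_, ?_⟩
  · intro i he
    have h1 := dist_vt (p := p) (hD.pos i.val) (nw i.val i.isLt)
    have h2 : vt p l w i.val = vt p l w (i.val + 1) := he
    rw [← h2, dist_self] at h1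
    exact absurd h1 (hD.pos _).ne
  · intro i j hij
    rw [Set.disjoint_left]
    intro z hz1 hz2
    obtain ⟨m, hm⟩ : ∃ m, j.val = i.val + m := ⟨j.val - i.val, by omega⟩
    have hm2 : 2 ≤ m := by omega
    have hj := j.isLt
    rw [Thin.mem_segment_iff'] at hz1 hz2
    obtain ⟨s, s0, s1, hs⟩ := hz1
    obtain ⟨s', s0', s1', hs'⟩ := hz2
    have e1 : conf n p l w i.castSucc = vt p l w i.val := rfl
    have e2 : conf n p l w i.succ = vt p l w (i.val + 1) := rfl
    have e3 : conf n p l w j.castSucc = vt p l w (i.val + m) := by rw [← hm]; rfl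
    have e4 : conf n p l w j.succ = vt p l w (i.val + m + 1) := by rw [← hm]; rfl
    rw [e1, e2, vt_succ, add_sub_cancel_left] at hs
    rw [e3, e4, vt_succ, add_sub_cancel_left] at hs'
    have h1 := chord_vt p l w i.val m (by omega) s s'
    rw [← hs, ← hs', sub_self] at h1
    obtain ⟨K, hK, hmax⟩ := Finset.exists_max_image (Finset.Ioo i.val (i.val + m)) r
      ⟨i.val + 1, Finset.mem_Ioo.2 ⟨by omega, by omega⟩⟩
    rw [Finset.mem_Ioo] at hK
    have hmax' : ∀ k, i.val < k → k < i.val + m → r k ≤ r K := fun k h2 h3 =>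
      hmax k (Finset.mem_Ioo.2 ⟨h2, h3⟩)
    refine chord_ne (s := range (m + 1)) (T := fun k => Cl r i.val K (i.val + m) (i.val + k))
      (c := Thin.cf l i.val m s s') (w := fun k => w (i.val + k)) (P := fun k => wP (i.val + k))
      (Q := fun k => wQ (i.val + k)) t0 t1 ?_ ?_ ?_
      (gP i.val m K hK.1 hK.2 (by omega) hmax' s s' s0 s1 s0' s1')
      (gQ i.val m K hK.1 hK.2 (by omega) hmax' s s' s0 s1 s0' s1') h1.symm
    · intro k hk
      have := mem_range.1 hk
      exact nw _ (by omega)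
    · intro k hk k' hk' hT hT'
      have h2 := mem_range.1 hk
      have h3 := mem_range.1 hk'
      have hinj : ∀ x, i.val < x → x < i.val + m → r x = r K → x = K := fun x h4 h5 h6 =>
        hr x K (by omega) (by omega) h6
      rcases Nat.lt_trichotomy (i.val + k) (i.val + k') with h4 | h4 | h4
      · exact hw _ _ (by omega) (cl_vis hK.1 hK.2 hmax' hinj hT hT' h4)
      · simp only [h4]
        rw [real_inner_self_eq_norm_sq, real_inner_self_eq_norm_sq, real_inner_self_eq_norm_sq,
          nw _ (by omega), nP, nQ]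
        ring
      · have h5 := hw _ _ (by omega : i.val + k < n)
          (cl_vis hK.1 hK.2 hmax' hinj hT' hT h4)
        rw [real_inner_comm, h5, real_inner_comm (wP (i.val + k)), real_inner_comm (wQ (i.val + k))]
    · refine sum_le_sum fun k _ => ?_
      split_ifs
      · exact le_rfl
      · exact (Thin.abs_cf_le l i.val m s0 s1 s0' s1' k).trans
          (le_of_eq (abs_of_pos (hD.pos _)))
  · intro i j hij
    have hj := j.isLt
    have e4 : conf n p l w j.succ = vt p l w (i.val + 2) := by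
      change vt p l w (j.val + 1) = _
      rw [hij]
    have e3 : conf n p l w j.castSucc = vt p l w (i.val + 1) := by
      change vt p l w j.val = _
      rw [hij]
    rw [e3, e4]
    apply Thin.adj (A := vt p l w i.val) (B := vt p l w (i.val + 1))
    rw [hang i.val (by omega)]
    exact (hpos i.val (by omega)).ne'
  · intro i
    rw [hD.len i]
    exact dist_vt (hD.pos _) (nw _ i.isLt)
  · intro i j hij
    have hj := j.isLt
    rw [hD.ang i j hij, ← hang i.val (by omega)]
    have e4 : conf n p l w j.succ = vt p l w (i.val + 2) := by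
      change vt p l w (j.val + 1) = _
      rw [hij]
    rw [e4]
    rfl

/-- The condition on a flat configuration. -/
def Dominated (P : Fin (n + 1) → E3) (l : ℕ → ℝ) (r : ℕ → ℕ) : Prop :=
  ∀ a b c : E3, ON a b c → ∀ α : ℕ → ℝ,
    (∀ k, k < n → vx P (k + 1) - vx P k = l k • pl a b (α k)) →
    (∀ x y, y < n → Vis r x y → sin (α x - α y) ≠ 0) ∧ DomGap n l r (fun k => pl a b (α k))

/-- A direction that is not parallel to finitely many given ones. -/
theorem exists_generic (S : Finset ℝ) : ∃ ω : ℝ, ∀ x ∈ S, sin (ω - x) ≠ 0 := by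
  by_contra hcon
  push Not at hcon
  have h1 : (Set.univ : Set ℝ) ⊆ ⋃ x ∈ S, Set.range (fun m : ℤ => x + m * π) := by
    intro ω _
    obtain ⟨x, hx, h⟩ := hcon ω
    rw [sin_eq_zero_iff] at h
    obtain ⟨m, hm⟩ := h
    rw [Set.mem_iUnion₂]
    exact ⟨x, hx, m, by simp only; linarith⟩
  have h2 : (⋃ x ∈ S, Set.range (fun m : ℤ => x + m * π)).Countable :=
    S.countable_toSet.biUnion fun x _ => Set.countable_range _
  exact Set.not_countable_univ (h2.mono h1)

end

end Pool.Agent.HCH
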