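import Pool.Agent.HCH.Attach
import Pool.Agent.HCH.Defs

/-!
# The family of directions with interpolated inner products
-/

set_option autoImplicit false

namespace Pool.Agent.HCH

open Real Pool.Agent.Lib_helper54.Flat

/-- The interpolated inner products of the directions with the angles `A k` and `B k`. -/
noncomputable def gg (A B : ℕ → ℝ) (a b : ℕ) (t : ℝ) : ℝ :=
  (1 - t) * cos (A a - A b) + t * cos (B a - B b)

/-- `a < b` and everything strictly between them has smaller rank than both. -/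
def Vis (r : ℕ → ℕ) (a b : ℕ) : Prop := a < b ∧ ∀ k, a < k → k < b → r k < r a ∧ r k < r b

theorem quad (m x y a b c : ℝ) :
    (m * cos b - x * cos a - y * cos c) ^ 2 + (m * sin b - x * sin a - y * sin c) ^ 2 =
      m ^ 2 + x ^ 2 + y ^ 2 - 2 * m * x * cos (a - b) - 2 * m * y * cos (b - c) +
        2 * x * y * cos (a - c) := by
  rw [cos_sub, cos_sub, cos_sub]
  have ha := sin_sq_add_cos_sq a
  have hb := sin_sq_add_cos_sq b
  have hc := sin_sq_add_cos_sq c
  linear_combination m ^ 2 * hb + x ^ 2 * ha + y ^ 2 * hc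

theorem cos_lt {x : ℝ} (h : sin x ≠ 0) : -1 < cos x ∧ cos x < 1 := by
  have h1 := sin_sq_add_cos_sq x
  have h2 : 0 < sin x ^ 2 := by positivity
  constructor <;> nlinarith

theorem gg_pos {A B : ℕ → ℝ} {a b : ℕ} {t : ℝ} (t0 : 0 ≤ t) (t1 : t ≤ 1)
    (h : sin (A a - A b) ≠ 0) (h' : sin (B a - B b) ≠ 0) :
    0 < 1 - gg A B a b t * gg A B a b t := by
  obtain ⟨h1, h2⟩ := cos_lt h
  obtain ⟨h3, h4⟩ := cos_lt h'
  have h5 : gg A B a b t < 1 := by
    unfold gg
    rcases eq_or_lt_of_le t1 with h | h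
    · rw [h]; linarith
    · nlinarith
  have h6 : -1 < gg A B a b t := by
    unfold gg
    rcases eq_or_lt_of_le t1 with h | h
    · rw [h]; linarith
    · nlinarith
  nlinarith

theorem det_nonneg {A B : ℕ → ℝ} {L K R : ℕ} {t : ℝ} (t0 : 0 ≤ t) (t1 : t ≤ 1)
    (h : 0 < 1 - gg A B L R t * gg A B L R t) :
    0 ≤ 1 - gg A B L R t * gg A B L R t - gg A B L K t * gg A B L K t -
      gg A B K R t * gg A B K R t + 2 * gg A B L R t * gg A B L K t * gg A B K R t := by
  obtain ⟨g, hg⟩ : ∃ g, g = gg A B L R t := ⟨_, rfl⟩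
  obtain ⟨p, hp⟩ : ∃ p, p = gg A B L K t := ⟨_, rfl⟩
  obtain ⟨q, hq⟩ : ∃ q, q = gg A B K R t := ⟨_, rfl⟩
  obtain ⟨m, hm⟩ : ∃ m, m = 1 - g * g := ⟨_, rfl⟩
  obtain ⟨x, hx⟩ : ∃ x, x = p - g * q := ⟨_, rfl⟩
  obtain ⟨y, hy⟩ : ∃ y, y = q - g * p := ⟨_, rfl⟩
  have e1 := quad m x y (A L) (A K) (A R)
  have e2 := quad m x y (B L) (B K) (B R)
  have hS : 0 ≤ (1 - t) * ((m * cos (A K) - x * cos (A L) - y * cos (A R)) ^ 2 +
      (m * sin (A K) - x * sin (A L) - y * sin (A R)) ^ 2) +
      t * ((m * cos (B K) - x * cos (B L) - y * cos (B R)) ^ 2 +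
      (m * sin (B K) - x * sin (B L) - y * sin (B R)) ^ 2) := by
    have : 0 ≤ 1 - t := by linarith
    positivity
  rw [e1, e2] at hS
  have hS' : 0 ≤ m ^ 2 + x ^ 2 + y ^ 2 - 2 * m * x * p - 2 * m * y * q + 2 * x * y * g := by
    have : m ^ 2 + x ^ 2 + y ^ 2 - 2 * m * x * p - 2 * m * y * q + 2 * x * y * g =
        (1 - t) * (m ^ 2 + x ^ 2 + y ^ 2 - 2 * m * x * cos (A L - A K) -
          2 * m * y * cos (A K - A R) + 2 * x * y * cos (A L - A R)) +
        t * (m ^ 2 + x ^ 2 + y ^ 2 - 2 * m * x * cos (B L - B K) -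
          2 * m * y * cos (B K - B R) + 2 * x * y * cos (B L - B R)) := by
      rw [hg, hp, hq]
      unfold gg
      ring
    rw [this]
    exact hS
  have h2 : m ^ 2 + x ^ 2 + y ^ 2 - 2 * m * x * p - 2 * m * y * q + 2 * x * y * g =
      m * (1 - g * g - p * p - q * q + 2 * g * p * q) := by
    rw [hx, hy, hm]
    ring
  rw [h2] at hS'
  rw [← hg] at h ⊢
  rw [← hp, ← hq]
  rw [← hm] at h
  exact nonneg_of_mul_nonneg_right hS' h

theorem continuous_gg (A B : ℕ → ℝ) (a b : ℕ) :
    Continuous fun t : unitInterval => gg A B a b t := by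
  unfold gg
  fun_prop

theorem gg_zero (A B : ℕ → ℝ) (a b : ℕ) : gg A B a b 0 = cos (A a - A b) := by
  unfold gg
  ring

theorem gg_one (A B : ℕ → ℝ) (a b : ℕ) : gg A B a b 1 = cos (B a - B b) := by
  unfold gg
  ring

/-- The family on an interval, for given directions at the ends. -/
theorem exists_family {A B : ℕ → ℝ} {r : ℕ → ℕ} : ∀ (d L R : ℕ), R = L + d → 1 ≤ d → Vis r L R →
    (∀ i j, L < i → i < R → L < j → j < R → r i = r j → i = j) →
    (∀ a b, L ≤ a → b ≤ R → Vis r a b → sin (A a - A b) ≠ 0 ∧ sin (B a - B b) ≠ 0) →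
    ∀ (uL uR : unitInterval → E3), Continuous uL → Continuous uR →
      (∀ t, inner ℝ (uL t) (uL t) = (1 : ℝ)) → (∀ t, inner ℝ (uR t) (uR t) = (1 : ℝ)) →
      (∀ t : unitInterval, inner ℝ (uL t) (uR t) = gg A B L R t) →
      ∃ u : ℕ → unitInterval → E3, u L = uL ∧ u R = uR ∧
        (∀ k, L ≤ k → k ≤ R → Continuous (u k) ∧ ∀ t, inner ℝ (u k t) (u k t) = (1 : ℝ)) ∧
        (∀ a b, L ≤ a → b ≤ R → Vis r a b →
          ∀ t : unitInterval, inner ℝ (u a t) (u b t) = gg A B a b t) ∧
        (∀ e f : E3, uL 0 = cos (A L) • e + sin (A L) • f →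
          uR 0 = cos (A R) • e + sin (A R) • f →
          ∀ k, L ≤ k → k ≤ R → u k 0 = cos (A k) • e + sin (A k) • f) ∧
        (∀ e f : E3, uL 1 = cos (B L) • e + sin (B L) • f →
          uR 1 = cos (B R) • e + sin (B R) • f →
          ∀ k, L ≤ k → k ≤ R → u k 1 = cos (B k) • e + sin (B k) • f) := by
  intro d
  induction d using Nat.strong_induction_on with
  | _ d ih =>
  intro L R hR hd hV hinj hsin uL uR cL cR nL nR hLR
  rcases Nat.lt_or_ge 1 d with hd2 | hd1
  · -- the highest rank in the interior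
    obtain ⟨K, hK, hmax⟩ := Finset.exists_max_image (Finset.Ioo L R) r
      ⟨L + 1, Finset.mem_Ioo.2 ⟨by omega, by omega⟩⟩
    rw [Finset.mem_Ioo] at hK
    have hlt : ∀ k, L < k → k < R → k ≠ K → r k < r K := fun k h1 h2 h3 =>
      lt_of_le_of_ne (hmax k (Finset.mem_Ioo.2 ⟨h1, h2⟩))
        fun h => h3 (hinj k K h1 h2 hK.1 hK.2 h)
    have hVL : Vis r L K := ⟨hK.1, fun k h1 h2 =>
      ⟨(hV.2 k h1 (by omega)).1, hlt k h1 (by omega) (by omega)⟩⟩
    have hVR : Vis r K R := ⟨hK.2, fun k h1 h2 =>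
      ⟨hlt k (by omega) h2 (by omega), (hV.2 k (by omega) h2).2⟩⟩
    have hs := hsin L R le_rfl le_rfl hV
    have hm : ∀ t : unitInterval, 0 < 1 - gg A B L R t * gg A B L R t := fun t =>
      gg_pos t.2.1 t.2.2 hs.1 hs.2
    have hD : ∀ t : unitInterval, 0 ≤ 1 - gg A B L R t * gg A B L R t -
        gg A B L K t * gg A B L K t - gg A B K R t * gg A B K R t +
        2 * gg A B L R t * gg A B L K t * gg A B K R t := fun t =>
      det_nonneg t.2.1 t.2.2 (hm t)
    obtain ⟨uK, huK⟩ : ∃ uK : unitInterval → E3, uK = fun t : unitInterval =>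
      att (gg A B L R t) (gg A B L K t) (gg A B K R t) (uL t) (uR t) := ⟨_, rfl⟩
    have cK : Continuous uK := by
      rw [huK]
      exact continuous_att (continuous_gg A B L R) (continuous_gg A B L K)
        (continuous_gg A B K R) cL cR fun t => (hm t).ne'
    have hspec : ∀ t : unitInterval, inner ℝ (uL t) (uK t) = gg A B L K t ∧
        inner ℝ (uK t) (uR t) = gg A B K R t ∧ inner ℝ (uK t) (uK t) = (1 : ℝ) := by
      intro t
      rw [huK]
      exact att_spec (nL t) (nR t) (hLR t) (hm t) (hD t)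
    obtain ⟨u1, a1, a2, a3, a4, a5, a6⟩ := ih (K - L) (by omega) L K (by omega) (by omega) hVL
      (fun i j h1 h2 h3 h4 => hinj i j h1 (by omega) h3 (by omega))
      (fun a b h1 h2 => hsin a b h1 (by omega)) uL uK cL cK nL (fun t => (hspec t).2.2)
      fun t => (hspec t).1
    obtain ⟨u2, b1, b2, b3, b4, b5, b6⟩ := ih (R - K) (by omega) K R (by omega) (by omega) hVR
      (fun i j h1 h2 h3 h4 => hinj i j (by omega) h2 (by omega) h4)
      (fun a b h1 h2 => hsin a b (by omega) h2) uK uR cK cR (fun t => (hspec t).2.2) nR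
      fun t => (hspec t).2.1
    have hu1 : ∀ k, k ≤ K → (fun k => if k ≤ K then u1 k else u2 k) k = u1 k := fun k hk =>
      if_pos hk
    have hu2 : ∀ k, K ≤ k → (fun k => if k ≤ K then u1 k else u2 k) k = u2 k := by
      intro k hk
      rcases Nat.eq_or_lt_of_le hk with h | h
      · subst h
        show (if K ≤ K then u1 K else u2 K) = _
        rw [if_pos le_rfl, a2, b1]
      · exact if_neg (by omega)
    have hatt0 : ∀ e f : E3, uL 0 = cos (A L) • e + sin (A L) • f →
        uR 0 = cos (A R) • e + sin (A R) • f → uK 0 = cos (A K) • e + sin (A K) • f := by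
      intro e f h1 h2
      rw [huK]
      show att (gg A B L R ((0 : unitInterval) : ℝ)) (gg A B L K ((0 : unitInterval) : ℝ))
        (gg A B K R ((0 : unitInterval) : ℝ)) (uL 0) (uR 0) = _
      rw [Set.Icc.coe_zero, gg_zero, gg_zero, gg_zero, h1, h2]
      exact att_plane e f hs.1
    have hatt1 : ∀ e f : E3, uL 1 = cos (B L) • e + sin (B L) • f →
        uR 1 = cos (B R) • e + sin (B R) • f → uK 1 = cos (B K) • e + sin (B K) • f := by
      intro e f h1 h2
      rw [huK]
      show att (gg A B L R ((1 : unitInterval) : ℝ)) (gg A B L K ((1 : unitInterval) : ℝ))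
        (gg A B K R ((1 : unitInterval) : ℝ)) (uL 1) (uR 1) = _
      rw [Set.Icc.coe_one, gg_one, gg_one, gg_one, h1, h2]
      exact att_plane e f hs.2
    refine ⟨fun k => if k ≤ K then u1 k else u2 k, ?_, ?_, ?_, ?_, ?_, ?_⟩
    · rw [hu1 L (by omega), a1]
    · rw [hu2 R (by omega), b2]
    · intro k h1 h2
      rcases Nat.le_total k K with h | h
      · rw [hu1 k h]
        exact a3 k h1 h
      · rw [hu2 k h]
        exact b3 k h h2
    · intro a b h1 h2 h3 t
      have h4 := h3.1
      rcases Nat.le_total b K with h | h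
      · rw [hu1 a (by omega), hu1 b h]
        exact a4 a b h1 h h3 t
      · rcases Nat.le_total K a with h' | h'
        · rw [hu2 a h', hu2 b h]
          exact b4 a b h' h2 h3 t
        · rcases Nat.eq_or_lt_of_le h' with h5 | h5
          · rw [hu2 a (by omega), hu2 b h]
            exact b4 a b (by omega) h2 h3 t
          · rcases Nat.eq_or_lt_of_le h with h6 | h6
            · rw [hu1 a (by omega), hu1 b (by omega)]
              exact a4 a b h1 (by omega) h3 t
            · -- `K` is strictly between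
              have h7 := h3.2 K h5 h6
              have ha : a = L := by
                by_contra hne
                have := hmax a (Finset.mem_Ioo.2 ⟨by omega, by omega⟩)
                omega
              have hb : b = R := by
                by_contra hne
                have := hmax b (Finset.mem_Ioo.2 ⟨by omega, by omega⟩)
                omega
              subst ha hb
              rw [hu1 a (by omega), hu2 b (by omega), a1, b2]
              exact hLR t
    · intro e f h1 h2 k h3 h4
      have h5 := hatt0 e f h1 h2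
      rcases Nat.le_total k K with h | h
      · rw [hu1 k h]
        exact a5 e f h1 h5 k h3 h
      · rw [hu2 k h]
        exact b5 e f h5 h2 k h h4
    · intro e f h1 h2 k h3 h4
      have h5 := hatt1 e f h1 h2
      rcases Nat.le_total k K with h | h
      · rw [hu1 k h]
        exact a6 e f h1 h5 k h3 h
      · rw [hu2 k h]
        exact b6 e f h5 h2 k h h4
  · have hd' : d = 1 := by omega
    subst hd'
    have hne : R ≠ L := by omega
    have hk : ∀ k, L ≤ k → k ≤ R → k = L ∨ k = R := fun k h1 h2 => by omega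
    obtain ⟨v, hv⟩ : ∃ v : ℕ → unitInterval → E3, v = fun k => if k = L then uL else uR :=
      ⟨_, rfl⟩
    have vL : v L = uL := by rw [hv]; exact if_pos rfl
    have vR : v R = uR := by rw [hv]; exact if_neg hne
    refine ⟨v, vL, vR, ?_, ?_, ?_, ?_⟩
    · intro k h1 h2
      rcases hk k h1 h2 with h | h
      · rw [h, vL]
        exact ⟨cL, nL⟩
      · rw [h, vR]
        exact ⟨cR, nR⟩
    · intro a b h1 h2 h3 t
      have h4 := h3.1
      have ha : a = L := by omega
      have hb : b = R := by omega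
      rw [ha, hb, vL, vR]
      exact hLR t
    · intro e f h1 h2 k h3 h4
      rcases hk k h3 h4 with h | h
      · rw [h, vL]
        exact h1
      · rw [h, vR]
        exact h2
    · intro e f h1 h2 k h3 h4
      rcases hk k h3 h4 with h | h
      · rw [h, vL]
        exact h1
      · rw [h, vR]
        exact h2

end Pool.Agent.HCH
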